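import Mathlib

/-!
# The noisy tree min-max value: definitions
-/

namespace Pool.Agent.Helper98.NoisyTree

/-- The infinite rooted `d`-ary tree: a vertex is a word `v : List (Fin d)`, the root is the empty
word `[]`, the children of `v` are the words `i :: v` with `i : Fin d`, and the height of `v` is
`v.length`. The edge from `v` to its child `i :: v` is the pair `(v, i)`, so that the type of edges
is `List (Fin d) × Fin d`. -/
abbrev Edge (d : ℕ) := List (Fin d) × Fin d

/-- `value x m v` is the value of the game which starts at the vertex `v` and has `m` moves left,
played with the cookies `x`: it is `0` if no move is left, and otherwise it is the maximum (if the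
height of `v` is even) or the minimum (if it is odd) over the children `i :: v` of `v` of the cookie
on the edge `(v, i)` plus the value at that child with one move less.
In the notation of the problem, `V_n(v) = value x (2 n - |v|) v` for `|v| ≤ 2 n`. -/
noncomputable def value {d : ℕ} (x : Edge d → ℤ) : ℕ → List (Fin d) → ℤ
  | 0, _ => 0
  | m + 1, v =>
    if Even v.length then ⨆ i : Fin d, (x (v, i) + value x m (i :: v))
    else ⨅ i : Fin d, (x (v, i) + value x m (i :: v))

/-- `V_n = V_n(ρ)`: the value at the root of the game with `n` rounds, i.e. `2 n` moves. -/
noncomputable def V {d : ℕ} (x : Edge d → ℤ) (n : ℕ) : ℤ := value x (2 * n) []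

end Pool.Agent.Helper98.NoisyTree
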