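import Mathlib
import Pool.Agent.Helper98.NoisyTree.Defs

/-!
# Almost sure convergence of the noisy tree min-max value

Let `V_n` be the value of the `n`-round max-min game on the infinite rooted `d`-ary tree whose
edges carry i.i.d. cookies `±1`. We prove that for every `d ≥ 3` the sequence `V_n` converges
almost surely.

Outline. Put `P n k = P(V_n ≥ 2k)` and `δ n k = P(exactly one of V_n ≥ 2k, V_{n+1} ≥ 2k holds)`.
* `Cookies.tail_eq`, `Cookies.joint_eq`: by independence of disjoint subtrees the marginal tails and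
  the joint tails of `(V_n, V_{n+1})` satisfy a closed recursion (`Sys`).
* `Sys.del_step`: hence `δ (n+1) ≤ M δ n` for an explicit nonnegative operator `M` which depends
  only on an enclosure `L ≤ P n ≤ U` of the marginal tails.
* `Sys.enclose`, `okStep_sound`: the marginal recursion is monotone, so an enclosure can be iterated
  and closed up by a sub/supersolution (kernel-checked integer arithmetic for `3 ≤ d ≤ 11`, by hand
  for `d ≥ 12`).
* `Sys.decay`: a positive weight `w` with `M w ≤ ρ w`, `ρ < 1`, gives `δ n k ≤ C ρ^n w k`.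
* `Cookies.converges`: Borel-Cantelli.
-/

open MeasureTheory ProbabilityTheory Filter Topology

namespace Pool.Agent.Helper98.NoisyTree

section Indep

variable {Ω : Type*} [mΩ : MeasurableSpace Ω] {μ : Measure Ω} [IsProbabilityMeasure μ]

lemma measure_biInter_of_disjoint {ι κ : Type*} {m : ι → MeasurableSpace Ω}
    (h_le : ∀ i, m i ≤ mΩ) (h_indep : iIndep m μ) {S : κ → Set ι}
    (hS : Pairwise (Function.onFun Disjoint S)) {C : κ → Set Ω}
    (hC : ∀ i, MeasurableSet[⨆ e ∈ S i, m e] (C i)) (s : Finset κ) :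
    μ (⋂ i ∈ s, C i) = ∏ i ∈ s, μ (C i) := by
  classical
  induction s using Finset.induction_on with
  | empty => simp
  | insert a s ha ih =>
    rw [Finset.set_biInter_insert, Finset.prod_insert ha, ← ih]
    have hd : Disjoint (S a) (⋃ i ∈ s, S i) := by
      rw [Set.disjoint_iUnion₂_right]
      intro i hi
      exact hS (fun h => ha (h ▸ hi))
    have hI := indep_iSup_of_disjoint h_le h_indep hd
    refine (Indep_iff _ _ _).1 hI _ _ (hC a) ?_
    refine Finset.measurableSet_biInter s fun i hi => ?_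
    have hle : (⨆ e ∈ S i, m e) ≤ ⨆ e ∈ ⋃ i ∈ s, S i, m e := by
      apply biSup_mono
      intro e he
      simp only [Set.mem_iUnion]
      exact ⟨i, hi, he⟩
    exact hle _ (hC i)

end Indep

section Tree

variable {d : ℕ}

/-- edges below a vertex -/
def sub (v : List (Fin d)) : Set (Edge d) := {e | v <:+ e.1}

def branch (v : List (Fin d)) (i : Fin d) : Set (Edge d) := insert (v, i) (sub (i :: v))

lemma sub_cons_subset (v : List (Fin d)) (i : Fin d) : sub (i :: v) ⊆ sub v := by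
  intro e he
  exact (List.suffix_cons i v).trans he

lemma mem_sub_self (v : List (Fin d)) (i : Fin d) : (v, i) ∈ sub v := List.suffix_refl v

lemma branch_disjoint (v : List (Fin d)) : Pairwise (Function.onFun Disjoint (branch v)) := by
  intro i j hij
  rw [Function.onFun, Set.disjoint_left]
  rintro ⟨u, l⟩ h1 h2
  simp only [branch, Set.mem_insert_iff, Prod.mk.injEq, sub, Set.mem_ofPred_eq] at h1 h2
  rcases h1 with ⟨rfl, rfl⟩ | h1
  · rcases h2 with ⟨_, rfl⟩ | h2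
    · exact hij rfl
    · have := h2.length_le
      simp at this
  · rcases h2 with ⟨rfl, rfl⟩ | h2
    · have := h1.length_le
      simp at this
    · have := List.suffix_of_suffix_length_le h1 h2 (by simp)
      have := this.eq_of_length (by simp)
      simp at this
      exact hij this

variable {Ω : Type*} [mΩ : MeasurableSpace Ω]

/-- sigma algebra generated by the cookies with index in `S` -/
def sig (X : Edge d → Ω → ℤ) (S : Set (Edge d)) : MeasurableSpace Ω :=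
  ⨆ e ∈ S, MeasurableSpace.comap (X e) ⊤

lemma sig_mono (X : Edge d → Ω → ℤ) {S T : Set (Edge d)} (h : S ⊆ T) : sig X S ≤ sig X T :=
  biSup_mono fun _ he => h he

lemma measurable_sig (X : Edge d → Ω → ℤ) {S : Set (Edge d)} {e : Edge d} (he : e ∈ S) :
    Measurable[sig X S] (X e) := by
  have h1 : MeasurableSpace.comap (X e) ⊤ ≤ sig X S := le_biSup (fun e => MeasurableSpace.comap (X e) ⊤) he
  exact Measurable.mono (comap_measurable (X e)) h1 le_rfl

lemma measurable_value (X : Edge d → Ω → ℤ) (m : ℕ) : ∀ v : List (Fin d),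
    Measurable[sig X (sub v)] (fun ω => value (fun e => X e ω) m v) := by
  induction m with
  | zero =>
    intro v
    simp only [value]
    exact measurable_const
  | succ m ih =>
    intro v
    have h1 : ∀ i : Fin d, Measurable[sig X (sub v)]
        (fun ω => X (v, i) ω + value (fun e => X e ω) m (i :: v)) := by
      intro i
      refine Measurable.add (measurable_sig X (mem_sub_self v i)) ?_
      exact (ih (i :: v)).mono (sig_mono X (sub_cons_subset v i)) le_rfl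
    by_cases hv : Even v.length
    · simp only [value, if_pos hv]
      exact Measurable.iSup h1
    · simp only [value, if_neg hv]
      exact Measurable.iInf h1

/-- the four hypotheses on the cookies, packed together for the proof -/
structure Cookies (μ : Measure Ω) (X : Edge d → Ω → ℤ) : Prop where
  meas : ∀ e, Measurable (X e)
  indep : iIndepFun X μ
  pos : ∀ e, μ {ω | X e ω = 1} = 1 / 2
  neg : ∀ e, μ {ω | X e ω = -1} = 1 / 2

lemma Cookies.sig_le {μ : Measure Ω} {X : Edge d → Ω → ℤ} (h : Cookies μ X) (S : Set (Edge d)) :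
    sig X S ≤ mΩ := by
  refine iSup₂_le fun e _ => ?_
  exact (h.meas e).comap_le

lemma Cookies.comap_le {μ : Measure Ω} {X : Edge d → Ω → ℤ} (h : Cookies μ X) (e : Edge d) :
    MeasurableSpace.comap (X e) ⊤ ≤ mΩ := (h.meas e).comap_le

lemma Cookies.ae {μ : Measure Ω} [IsProbabilityMeasure μ] {X : Edge d → Ω → ℤ} (h : Cookies μ X)
    (e : Edge d) : ∀ᵐ ω ∂μ, X e ω = 1 ∨ X e ω = -1 := by
  have hm1 : MeasurableSet {ω | X e ω = 1} := h.meas e (measurableSet_singleton 1)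
  have hm2 : MeasurableSet {ω | X e ω = -1} := h.meas e (measurableSet_singleton (-1))
  have hu : μ ({ω | X e ω = 1} ∪ {ω | X e ω = -1}) = 1 := by
    rw [measure_union _ hm2, h.pos, h.neg]
    · exact ENNReal.add_halves 1
    · rw [Set.disjoint_left]
      intro ω h1 h2
      simp only [Set.mem_ofPred_eq] at h1 h2
      omega
  have hc := (prob_compl_eq_zero_iff (μ := μ) (hm1.union hm2)).2 hu
  rw [ae_iff]
  convert hc using 2
  ext ω
  simp

lemma Cookies.node {μ : Measure Ω} [IsProbabilityMeasure μ] {X : Edge d → Ω → ℤ}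
    (h : Cookies μ X) (v : List (Fin d)) (i : Fin d) (K : ℤ → Set Ω)
    (hK : ∀ s, MeasurableSet[sig X (sub (i :: v))] (K s)) (t : ℤ) :
    μ.real {ω | ω ∈ K (t - X (v, i) ω)} = (μ.real (K (t - 1)) + μ.real (K (t + 1))) / 2 := by
  have hI : Indep (sig X {(v, i)}) (sig X (sub (i :: v))) μ := by
    refine indep_iSup_of_disjoint h.comap_le h.indep ?_
    rw [Set.disjoint_singleton_left]
    intro hmem
    have := List.IsSuffix.length_le (show (i :: v) <:+ v from hmem)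
    simp at this
  have hprod : ∀ (a : ℤ) (s : ℤ), μ.real ({ω | X (v, i) ω = a} ∩ K s)
      = μ.real {ω | X (v, i) ω = a} * μ.real (K s) := by
    intro a s
    have := (Indep_iff _ _ _).1 hI {ω | X (v, i) ω = a} (K s)
      (measurable_sig X (Set.mem_singleton _) (measurableSet_singleton a)) (hK s)
    simp only [Measure.real, this, ENNReal.toReal_mul]
  have hpos : μ.real {ω | X (v, i) ω = 1} = 1 / 2 := by
    simp [Measure.real, h.pos]
  have hneg : μ.real {ω | X (v, i) ω = -1} = 1 / 2 := by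
    simp [Measure.real, h.neg]
  have hKm : ∀ s, MeasurableSet (K s) := fun s => h.sig_le _ _ (hK s)
  have hae : {ω | ω ∈ K (t - X (v, i) ω)} =ᵐ[μ]
      (({ω | X (v, i) ω = 1} ∩ K (t - 1)) ∪ ({ω | X (v, i) ω = -1} ∩ K (t + 1)) : Set Ω) := by
    filter_upwards [h.ae (v, i)] with ω hω
    apply propext
    change ω ∈ K (t - X (v, i) ω) ↔
      ω ∈ ({ω | X (v, i) ω = 1} ∩ K (t - 1)) ∪ ({ω | X (v, i) ω = -1} ∩ K (t + 1))
    rcases hω with hω | hω
    · simp [hω]
    · simp [hω]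
  rw [measureReal_congr hae, measureReal_union, hprod, hprod, hpos, hneg]
  · ring
  · rw [Set.disjoint_left]
    rintro ω ⟨h1, _⟩ ⟨h2, _⟩
    simp only [Set.mem_ofPred_eq] at h1 h2
    omega
  · exact (h.meas _ (measurableSet_singleton (-1))).inter (hKm _)

lemma Cookies.nodes {μ : Measure Ω} [IsProbabilityMeasure μ] {X : Edge d → Ω → ℤ}
    (h : Cookies μ X) (v : List (Fin d)) (K : Fin d → ℤ → Set Ω)
    (hK : ∀ i s, MeasurableSet[sig X (sub (i :: v))] (K i s)) (t : ℤ) (a b : ℝ)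
    (ha : ∀ i, μ.real (K i (t - 1)) = a) (hb : ∀ i, μ.real (K i (t + 1)) = b) :
    μ.real {ω | ∀ i, ω ∈ K i (t - X (v, i) ω)} = ((a + b) / 2) ^ d := by
  have hS : {ω | ∀ i, ω ∈ K i (t - X (v, i) ω)}
      = ⋂ i ∈ (Finset.univ : Finset (Fin d)), {ω | ω ∈ K i (t - X (v, i) ω)} := by
    ext ω
    simp
  have hC : ∀ i, MeasurableSet[⨆ e ∈ branch v i, MeasurableSpace.comap (X e) ⊤]
      {ω | ω ∈ K i (t - X (v, i) ω)} := by
    intro i
    change MeasurableSet[sig X (branch v i)] _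
    have : {ω | ω ∈ K i (t - X (v, i) ω)} = ⋃ s : ℤ, ({ω | X (v, i) ω = s} ∩ K i (t - s)) := by
      ext ω
      simp
    rw [this]
    refine MeasurableSet.iUnion fun s => ?_
    refine MeasurableSet.inter ?_ ?_
    · exact measurable_sig X (Set.mem_insert _ _) (measurableSet_singleton s)
    · exact sig_mono X (Set.subset_insert _ _) _ (hK i _)
  have := measure_biInter_of_disjoint (μ := μ) h.comap_le h.indep (branch_disjoint v) hC
    Finset.univ
  rw [hS, Measure.real, this, ENNReal.toReal_prod]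
  have h2 : ∀ i ∈ (Finset.univ : Finset (Fin d)),
      (μ {ω | ω ∈ K i (t - X (v, i) ω)}).toReal = (a + b) / 2 := by
    intro i _
    have := h.node v i (K i) (hK i) t
    rw [Measure.real, ha, hb] at this
    exact this
  rw [Finset.prod_congr rfl h2, Finset.prod_const, Finset.card_univ, Fintype.card_fin]

end Tree

section Numeric

/-- law of the value: `tail d m b t` is the probability that the value with `m` moves left at a
vertex of parity `b` (`true`: even height) is at least `t` -/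
noncomputable def tail (d : ℕ) : ℕ → Bool → ℤ → ℝ
  | 0, _, t => if t ≤ 0 then 1 else 0
  | m + 1, true, t =>
    1 - (((1 - tail d m false (t - 1)) + (1 - tail d m false (t + 1))) / 2) ^ d
  | m + 1, false, t => ((tail d m true (t - 1) + tail d m true (t + 1)) / 2) ^ d

/-- joint law for horizons `m` and `m + 2` -/
noncomputable def joint (d : ℕ) : ℕ → Bool → ℤ → ℝ
  | 0, b, t => if t ≤ 0 then tail d 2 b t else 0
  | m + 1, true, t =>
    1 - (((1 - tail d m false (t - 1)) + (1 - tail d m false (t + 1))) / 2) ^ d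
      - (((1 - tail d (m + 2) false (t - 1)) + (1 - tail d (m + 2) false (t + 1))) / 2) ^ d
      + (((1 - tail d m false (t - 1) - tail d (m + 2) false (t - 1) + joint d m false (t - 1))
        + (1 - tail d m false (t + 1) - tail d (m + 2) false (t + 1) + joint d m false (t + 1)))
          / 2) ^ d
  | m + 1, false, t => ((joint d m true (t - 1) + joint d m true (t + 1)) / 2) ^ d

end Numeric

section Law

variable {d : ℕ} {Ω : Type*} [mΩ : MeasurableSpace Ω]

lemma le_iSup_fin_iff (hd : 0 < d) (f : Fin d → ℤ) (t : ℤ) : t ≤ ⨆ i, f i ↔ ∃ i, t ≤ f i := by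
  have : Nonempty (Fin d) := ⟨⟨0, hd⟩⟩
  constructor
  · intro h
    obtain ⟨i, hi⟩ := exists_eq_ciSup_of_finite (f := f)
    exact ⟨i, hi ▸ h⟩
  · rintro ⟨i, hi⟩
    exact hi.trans (le_ciSup (Set.finite_range f).bddAbove i)

lemma le_iInf_fin_iff (hd : 0 < d) (f : Fin d → ℤ) (t : ℤ) : t ≤ ⨅ i, f i ↔ ∀ i, t ≤ f i := by
  have : Nonempty (Fin d) := ⟨⟨0, hd⟩⟩
  exact le_ciInf_iff (Set.finite_range f).bddBelow

lemma value_even (hd : 0 < d) (x : Edge d → ℤ) (m : ℕ) (v : List (Fin d)) (hv : Even v.length)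
    (t : ℤ) : value x (m + 1) v < t ↔ ∀ i, value x m (i :: v) < t - x (v, i) := by
  rw [← not_le]
  simp only [value, if_pos hv]
  rw [le_iSup_fin_iff hd]
  push Not
  exact forall_congr' fun i => by constructor <;> intro h <;> omega

lemma value_odd (hd : 0 < d) (x : Edge d → ℤ) (m : ℕ) (v : List (Fin d)) (hv : ¬ Even v.length)
    (t : ℤ) : t ≤ value x (m + 1) v ↔ ∀ i, t - x (v, i) ≤ value x m (i :: v) := by
  simp only [value, if_neg hv]
  rw [le_iInf_fin_iff hd]
  exact forall_congr' fun i => by constructor <;> intro h <;> omega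

variable {μ : Measure Ω} [IsProbabilityMeasure μ] {X : Edge d → Ω → ℤ}

lemma Cookies.meas_ge (h : Cookies μ X) (m : ℕ) (v : List (Fin d)) (t : ℤ) :
    MeasurableSet[sig X (sub v)] {ω | t ≤ value (fun e => X e ω) m v} :=
  measurable_value X m v (measurableSet_Ici (a := t))

lemma Cookies.meas_lt (h : Cookies μ X) (m : ℕ) (v : List (Fin d)) (t : ℤ) :
    MeasurableSet[sig X (sub v)] {ω | value (fun e => X e ω) m v < t} :=
  measurable_value X m v (measurableSet_Iio (a := t))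

lemma Cookies.lt_eq (h : Cookies μ X) (m : ℕ) (v : List (Fin d)) (t : ℤ) :
    μ.real {ω | value (fun e => X e ω) m v < t}
      = 1 - μ.real {ω | t ≤ value (fun e => X e ω) m v} := by
  have := probReal_compl_eq_one_sub (μ := μ) (h.sig_le _ _ (h.meas_ge m v t))
  rw [← this]
  congr 1
  ext ω
  simp

lemma Cookies.tail_eq (h : Cookies μ X) (hd : 0 < d) (m : ℕ) : ∀ (v : List (Fin d)) (t : ℤ),
    μ.real {ω | t ≤ value (fun e => X e ω) m v} = tail d m (decide (Even v.length)) t := by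
  induction m with
  | zero =>
    intro v t
    by_cases ht : t ≤ 0
    · simp [value, tail, ht]
    · simp [value, tail, ht]
  | succ m ih =>
    intro v t
    by_cases hv : Even v.length
    · have hv' : ∀ i : Fin d, ¬ Even (i :: v).length := by
        intro i
        simp only [List.length_cons]
        exact fun h' => (Nat.even_add_one.1 h') hv
      have h1 := h.lt_eq (m + 1) v t
      have h2 : {ω | value (fun e => X e ω) (m + 1) v < t}
          = {ω | ∀ i, ω ∈ (fun (i : Fin d) (s : ℤ) =>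
              {ω | value (fun e => X e ω) m (i :: v) < s}) i (t - X (v, i) ω)} := by
        ext ω
        exact value_even hd _ m v hv t
      have h3 := h.nodes v (fun (i : Fin d) (s : ℤ) =>
              {ω | value (fun e => X e ω) m (i :: v) < s}) (fun i s => h.meas_lt m (i :: v) s) t
              (1 - tail d m false (t - 1)) (1 - tail d m false (t + 1))
              (fun i => by rw [h.lt_eq, ih, decide_eq_false (hv' i)])
              (fun i => by rw [h.lt_eq, ih, decide_eq_false (hv' i)])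
      rw [h2, h3] at h1
      rw [decide_eq_true hv]
      simp only [tail]
      linarith
    · have hv' : ∀ i : Fin d, Even (i :: v).length := by
        intro i
        simp only [List.length_cons]
        exact Nat.even_add_one.2 hv
      have h2 : {ω | t ≤ value (fun e => X e ω) (m + 1) v}
          = {ω | ∀ i, ω ∈ (fun (i : Fin d) (s : ℤ) =>
              {ω | s ≤ value (fun e => X e ω) m (i :: v)}) i (t - X (v, i) ω)} := by
        ext ω
        exact value_odd hd _ m v hv t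
      have h3 := h.nodes v (fun (i : Fin d) (s : ℤ) =>
              {ω | s ≤ value (fun e => X e ω) m (i :: v)}) (fun i s => h.meas_ge m (i :: v) s) t
              (tail d m true (t - 1)) (tail d m true (t + 1))
              (fun i => by rw [ih, decide_eq_true (hv' i)])
              (fun i => by rw [ih, decide_eq_true (hv' i)])
      rw [h2, h3, decide_eq_false hv]
      simp only [tail]

lemma Cookies.joint_lt_eq (h : Cookies μ X) (m m' : ℕ) (v : List (Fin d)) (t : ℤ) :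
    μ.real {ω | value (fun e => X e ω) m v < t ∧ value (fun e => X e ω) m' v < t}
      = 1 - μ.real {ω | t ≤ value (fun e => X e ω) m v}
          - μ.real {ω | t ≤ value (fun e => X e ω) m' v}
          + μ.real {ω | t ≤ value (fun e => X e ω) m v ∧ t ≤ value (fun e => X e ω) m' v} := by
  set A := {ω | t ≤ value (fun e => X e ω) m v} with hA
  set B := {ω | t ≤ value (fun e => X e ω) m' v} with hB
  have hAm : MeasurableSet A := h.sig_le _ _ (h.meas_ge m v t)
  have hBm : MeasurableSet B := h.sig_le _ _ (h.meas_ge m' v t)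
  have h1 : {ω | value (fun e => X e ω) m v < t ∧ value (fun e => X e ω) m' v < t} = (A ∪ B)ᶜ := by
    ext ω
    simp [hA, hB]
  have h2 : {ω | t ≤ value (fun e => X e ω) m v ∧ t ≤ value (fun e => X e ω) m' v} = A ∩ B := by
    ext ω
    simp [hA, hB]
  have h3 := measureReal_union_add_inter (μ := μ) (s := A) hBm
  rw [h1, h2, probReal_compl_eq_one_sub (hAm.union hBm)]
  linarith

lemma Cookies.joint_eq (h : Cookies μ X) (hd : 0 < d) (m : ℕ) : ∀ (v : List (Fin d)) (t : ℤ),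
    μ.real {ω | t ≤ value (fun e => X e ω) m v ∧ t ≤ value (fun e => X e ω) (m + 2) v}
      = joint d m (decide (Even v.length)) t := by
  induction m with
  | zero =>
    intro v t
    by_cases ht : t ≤ 0
    · simp only [value, joint, ht, true_and, if_true]
      have := h.tail_eq hd 2 v t
      simp only [value] at this
      exact this
    · simp [value, joint, ht]
  | succ m ih =>
    intro v t
    by_cases hv : Even v.length
    · have hv' : ∀ i : Fin d, ¬ Even (i :: v).length := by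
        intro i
        simp only [List.length_cons]
        exact fun h' => (Nat.even_add_one.1 h') hv
      have h1 := h.joint_lt_eq (m + 1) (m + 1 + 2) v t
      have h2 : {ω | value (fun e => X e ω) (m + 1) v < t ∧
            value (fun e => X e ω) (m + 1 + 2) v < t}
          = {ω | ∀ i, ω ∈ (fun (i : Fin d) (s : ℤ) =>
              {ω | value (fun e => X e ω) m (i :: v) < s ∧
                value (fun e => X e ω) (m + 2) (i :: v) < s}) i (t - X (v, i) ω)} := by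
        ext ω
        change (_ ∧ _) ↔ ∀ i, (_ ∧ _)
        rw [value_even hd _ m v hv t, show m + 1 + 2 = (m + 2) + 1 from by ring,
          value_even hd _ (m + 2) v hv t, ← forall_and]
      have h3 := h.nodes v (fun (i : Fin d) (s : ℤ) =>
              {ω | value (fun e => X e ω) m (i :: v) < s ∧
                value (fun e => X e ω) (m + 2) (i :: v) < s})
              (fun i s => (h.meas_lt m (i :: v) s).inter (h.meas_lt (m + 2) (i :: v) s)) t
              (1 - tail d m false (t - 1) - tail d (m + 2) false (t - 1) + joint d m false (t - 1))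
              (1 - tail d m false (t + 1) - tail d (m + 2) false (t + 1) + joint d m false (t + 1))
              (fun i => by
                rw [h.joint_lt_eq, ih, h.tail_eq hd, h.tail_eq hd, decide_eq_false (hv' i)])
              (fun i => by
                rw [h.joint_lt_eq, ih, h.tail_eq hd, h.tail_eq hd, decide_eq_false (hv' i)])
      rw [h2, h3, h.tail_eq hd, h.tail_eq hd, decide_eq_true hv,
        show m + 1 + 2 = (m + 2) + 1 from by ring] at h1
      rw [decide_eq_true hv]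
      simp only [tail, joint] at h1 ⊢
      linarith
    · have hv' : ∀ i : Fin d, Even (i :: v).length := by
        intro i
        simp only [List.length_cons]
        exact Nat.even_add_one.2 hv
      have h2 : {ω | t ≤ value (fun e => X e ω) (m + 1) v ∧
            t ≤ value (fun e => X e ω) (m + 1 + 2) v}
          = {ω | ∀ i, ω ∈ (fun (i : Fin d) (s : ℤ) =>
              {ω | s ≤ value (fun e => X e ω) m (i :: v) ∧
                s ≤ value (fun e => X e ω) (m + 2) (i :: v)}) i (t - X (v, i) ω)} := by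
        ext ω
        change (_ ∧ _) ↔ ∀ i, (_ ∧ _)
        rw [value_odd hd _ m v hv t, show m + 1 + 2 = (m + 2) + 1 from by ring,
          value_odd hd _ (m + 2) v hv t, ← forall_and]
      have h3 := h.nodes v (fun (i : Fin d) (s : ℤ) =>
              {ω | s ≤ value (fun e => X e ω) m (i :: v) ∧
                s ≤ value (fun e => X e ω) (m + 2) (i :: v)})
              (fun i s => (h.meas_ge m (i :: v) s).inter (h.meas_ge (m + 2) (i :: v) s)) t
              (joint d m true (t - 1)) (joint d m true (t + 1))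
              (fun i => by rw [ih, decide_eq_true (hv' i)])
              (fun i => by rw [ih, decide_eq_true (hv' i)])
      rw [h2, h3, decide_eq_false hv]
      simp only [joint]

end Law

section System

/-- The closed system of recursions satisfied by the marginal tails `P n k = P(V_n ≥ 2k)` and the
joint tails `G n k = P(V_n ≥ 2k, V_{n+1} ≥ 2k)` (`Q`, `H`: the same at vertices of odd height). -/
structure Sys (d : ℕ) (P Q G H : ℕ → ℤ → ℝ) : Prop where
  P_zero : ∀ k, P 0 k = if k ≤ 0 then 1 else 0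
  P_succ : ∀ n k, P (n + 1) k = 1 - (((1 - Q n (k - 1)) + (1 - Q n k)) / 2) ^ d
  Q_eq : ∀ n j, Q n j = ((P n j + P n (j + 1)) / 2) ^ d
  G_succ : ∀ n k, G (n + 1) k = 1 - (((1 - Q n (k - 1)) + (1 - Q n k)) / 2) ^ d
    - (((1 - Q (n + 1) (k - 1)) + (1 - Q (n + 1) k)) / 2) ^ d
    + (((1 - Q n (k - 1) - Q (n + 1) (k - 1) + H n (k - 1))
      + (1 - Q n k - Q (n + 1) k + H n k)) / 2) ^ d
  H_eq : ∀ n j, H n j = ((G n j + G n (j + 1)) / 2) ^ d
  P_nonneg : ∀ n k, 0 ≤ P n k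
  P_le : ∀ n k, P n k ≤ 1
  G_nonneg : ∀ n k, 0 ≤ G n k
  G_le₁ : ∀ n k, G n k ≤ P n k
  G_le₂ : ∀ n k, G n k ≤ P (n + 1) k
  G_ge : ∀ n k, P n k + P (n + 1) k - 1 ≤ G n k
  H_le₁ : ∀ n k, H n k ≤ Q n k
  H_le₂ : ∀ n k, H n k ≤ Q (n + 1) k
  H_ge : ∀ n k, Q n k + Q (n + 1) k - 1 ≤ H n k

lemma pow_sub_pow_le' {a c M : ℝ} (hc : 0 ≤ c) (hca : c ≤ a) (haM : a ≤ M) (d : ℕ) :
    a ^ (d + 1) - c ^ (d + 1) ≤ (d + 1 : ℝ) * M ^ d * (a - c) := by
  have ha : 0 ≤ a := hc.trans hca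
  have hM : 0 ≤ M := ha.trans haM
  induction d with
  | zero => simp
  | succ d ih =>
    have h1 : a ^ (d + 1 + 1) - c ^ (d + 1 + 1)
        = a * (a ^ (d + 1) - c ^ (d + 1)) + (a - c) * c ^ (d + 1) := by ring
    have h2 : a * (a ^ (d + 1) - c ^ (d + 1)) ≤ M * ((d + 1 : ℝ) * M ^ d * (a - c)) := by
      have : 0 ≤ a ^ (d + 1) - c ^ (d + 1) := sub_nonneg.2 (pow_le_pow_left₀ hc hca _)
      exact mul_le_mul haM ih this hM
    have h3 : (a - c) * c ^ (d + 1) ≤ (a - c) * M ^ (d + 1) :=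
      mul_le_mul_of_nonneg_left (pow_le_pow_left₀ hc (hca.trans haM) _) (sub_nonneg.2 hca)
    calc a ^ (d + 1 + 1) - c ^ (d + 1 + 1)
        ≤ M * ((d + 1 : ℝ) * M ^ d * (a - c)) + (a - c) * M ^ (d + 1) := by
          rw [h1]; exact add_le_add h2 h3
      _ = ((d + 1 : ℕ) + 1 : ℝ) * M ^ (d + 1) * (a - c) := by push_cast; ring

/-- two-sided difference bound -/
lemma diff_bound {a b c M : ℝ} {d : ℕ} (hd : 0 < d) (hc : 0 ≤ c) (hca : c ≤ a) (hcb : c ≤ b)
    (haM : a ≤ M) (hbM : b ≤ M) :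
    a ^ d + b ^ d - 2 * c ^ d ≤ d * M ^ (d - 1) * (a + b - 2 * c) := by
  obtain ⟨d, rfl⟩ : ∃ e, d = e + 1 := ⟨d - 1, by omega⟩
  have h1 := pow_sub_pow_le' hc hca haM d
  have h2 := pow_sub_pow_le' hc hcb hbM d
  have : d + 1 - 1 = d := by omega
  rw [this]
  push_cast
  nlinarith [h1, h2]

variable {d : ℕ} {P Q G H : ℕ → ℤ → ℝ}

lemma Sys.Q_nonneg (h : Sys d P Q G H) (n : ℕ) (k : ℤ) : 0 ≤ Q n k := by
  rw [h.Q_eq]
  have := h.P_nonneg n k
  have := h.P_nonneg n (k + 1)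
  positivity

lemma Sys.Q_le (h : Sys d P Q G H) (n : ℕ) (k : ℤ) : Q n k ≤ 1 := by
  rw [h.Q_eq]
  have := h.P_nonneg n k
  have := h.P_nonneg n (k + 1)
  have := h.P_le n k
  have := h.P_le n (k + 1)
  exact pow_le_one₀ (by linarith) (by linarith)

/-- the disagreement probabilities at even level -/
def del (P G : ℕ → ℤ → ℝ) (n : ℕ) (k : ℤ) : ℝ := P n k + P (n + 1) k - 2 * G n k

lemma Sys.del_nonneg (h : Sys d P Q G H) (n : ℕ) (k : ℤ) : 0 ≤ del P G n k := by
  have := h.G_le₁ n k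
  have := h.G_le₂ n k
  simp only [del]
  linarith

lemma Sys.eta_le (h : Sys d P Q G H) (hd : 0 < d) (n : ℕ) (j : ℤ) (α : ℝ)
    (h1 : (P n j + P n (j + 1)) / 2 ≤ α) (h2 : (P (n + 1) j + P (n + 1) (j + 1)) / 2 ≤ α) :
    Q n j + Q (n + 1) j - 2 * H n j
      ≤ d * α ^ (d - 1) * ((del P G n j + del P G n (j + 1)) / 2) := by
  rw [h.Q_eq n j, h.Q_eq (n + 1) j, h.H_eq n j]
  have a1 := h.G_nonneg n j
  have a2 := h.G_nonneg n (j + 1)
  have a3 := h.G_le₁ n j
  have a4 := h.G_le₁ n (j + 1)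
  have a5 := h.G_le₂ n j
  have a6 := h.G_le₂ n (j + 1)
  have := diff_bound (a := (P n j + P n (j + 1)) / 2) (b := (P (n + 1) j + P (n + 1) (j + 1)) / 2)
    (c := (G n j + G n (j + 1)) / 2) (M := α) hd (by linarith) (by linarith) (by linarith) h1 h2
  refine this.trans (le_of_eq ?_)
  simp only [del]
  ring

lemma Sys.del_succ_le (h : Sys d P Q G H) (hd : 0 < d) (n : ℕ) (k : ℤ) (β : ℝ)
    (h1 : 1 - (Q n (k - 1) + Q n k) / 2 ≤ β)
    (h2 : 1 - (Q (n + 1) (k - 1) + Q (n + 1) k) / 2 ≤ β) :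
    del P G (n + 1) k ≤ d * β ^ (d - 1) *
      (((Q n (k - 1) + Q (n + 1) (k - 1) - 2 * H n (k - 1))
        + (Q n k + Q (n + 1) k - 2 * H n k)) / 2) := by
  simp only [del]
  rw [h.G_succ n k, h.P_succ (n + 1) k, h.P_succ n k]
  have a1 := h.H_ge n (k - 1)
  have a2 := h.H_ge n k
  have a3 := h.H_le₁ n (k - 1)
  have a4 := h.H_le₁ n k
  have a5 := h.H_le₂ n (k - 1)
  have a6 := h.H_le₂ n k
  have := diff_bound (a := ((1 - Q n (k - 1)) + (1 - Q n k)) / 2)
    (b := ((1 - Q (n + 1) (k - 1)) + (1 - Q (n + 1) k)) / 2)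
    (c := ((1 - Q n (k - 1) - Q (n + 1) (k - 1) + H n (k - 1))
      + (1 - Q n k - Q (n + 1) k + H n k)) / 2) (M := β) hd (by linarith) (by linarith)
      (by linarith) (by linarith) (by linarith)
  have e : (((1 - Q n (k - 1)) + (1 - Q n k)) / 2 + ((1 - Q (n + 1) (k - 1)) + (1 - Q (n + 1) k)) / 2
      - 2 * (((1 - Q n (k - 1) - Q (n + 1) (k - 1) + H n (k - 1))
      + (1 - Q n k - Q (n + 1) k + H n k)) / 2)) = (((Q n (k - 1) + Q (n + 1) (k - 1) - 2 * H n (k - 1))
        + (Q n k + Q (n + 1) k - 2 * H n k)) / 2) := by ring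
  rw [e] at this
  linarith

/-- one step of the marginal recursion -/
noncomputable def T (d : ℕ) (f : ℤ → ℝ) (k : ℤ) : ℝ :=
  1 - (1 - (((f (k - 1) + f k) / 2) ^ d + ((f k + f (k + 1)) / 2) ^ d) / 2) ^ d

lemma Sys.P_succ_eq (h : Sys d P Q G H) (n : ℕ) (k : ℤ) : P (n + 1) k = T d (P n) k := by
  rw [h.P_succ, T, h.Q_eq n k, h.Q_eq n (k - 1)]
  congr 2
  rw [sub_add_cancel]
  ring

lemma T_mono {f g : ℤ → ℝ} (hf : ∀ k, 0 ≤ f k) (hg : ∀ k, g k ≤ 1) (hfg : ∀ k, f k ≤ g k)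
    (k : ℤ) : T d f k ≤ T d g k := by
  have h1 : ((f (k - 1) + f k) / 2) ^ d ≤ ((g (k - 1) + g k) / 2) ^ d :=
    pow_le_pow_left₀ (by linarith [hf (k - 1), hf k]) (by linarith [hfg (k - 1), hfg k]) _
  have h2 : ((f k + f (k + 1)) / 2) ^ d ≤ ((g k + g (k + 1)) / 2) ^ d :=
    pow_le_pow_left₀ (by linarith [hf (k + 1), hf k]) (by linarith [hfg (k + 1), hfg k]) _
  have h3 : ((g (k - 1) + g k) / 2) ^ d ≤ 1 :=
    pow_le_one₀ (by linarith [hf (k - 1), hf k, hfg (k - 1), hfg k]) (by linarith [hg (k - 1), hg k])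
  have h4 : ((g k + g (k + 1)) / 2) ^ d ≤ 1 :=
    pow_le_one₀ (by linarith [hf (k + 1), hf k, hfg (k + 1), hfg k]) (by linarith [hg (k + 1), hg k])
  simp only [T]
  have : (1 - (((g (k - 1) + g k) / 2) ^ d + ((g k + g (k + 1)) / 2) ^ d) / 2) ^ d
      ≤ (1 - (((f (k - 1) + f k) / 2) ^ d + ((f k + f (k + 1)) / 2) ^ d) / 2) ^ d :=
    pow_le_pow_left₀ (by linarith) (by linarith) _
  linarith

lemma Sys.enclose (h : Sys d P Q G H) {L U : ℤ → ℝ} {n₀ : ℕ} (hL0 : ∀ k, 0 ≤ L k)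
    (hU1 : ∀ k, U k ≤ 1) (h0 : ∀ k, L k ≤ P n₀ k ∧ P n₀ k ≤ U k)
    (hL : ∀ k, L k ≤ T d L k) (hU : ∀ k, T d U k ≤ U k) (n : ℕ) (hn : n₀ ≤ n) :
    ∀ k, L k ≤ P n k ∧ P n k ≤ U k := by
  induction n, hn using Nat.le_induction with
  | base => exact h0
  | succ n hn ih =>
    intro k
    rw [h.P_succ_eq]
    exact ⟨(hL k).trans (T_mono hL0 (h.P_le n) (fun k => (ih k).1) k),
      (T_mono (h.P_nonneg n) hU1 (fun k => (ih k).2) k).trans (hU k)⟩

/-- the linear majorant of the recursion for the disagreement probabilities -/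
noncomputable def Mop (d : ℕ) (L U w : ℤ → ℝ) (k : ℤ) : ℝ :=
  (d : ℝ) ^ 2 / 4 * (1 - (((L (k - 1) + L k) / 2) ^ d + ((L k + L (k + 1)) / 2) ^ d) / 2) ^ (d - 1)
    * (((U (k - 1) + U k) / 2) ^ (d - 1) * (w (k - 1) + w k)
      + ((U k + U (k + 1)) / 2) ^ (d - 1) * (w k + w (k + 1)))

lemma Sys.del_step (h : Sys d P Q G H) (hd : 0 < d) {L U w : ℤ → ℝ} (n : ℕ) (C : ℝ)
    (hL0 : ∀ k, 0 ≤ L k) (hU1 : ∀ k, U k ≤ 1)
    (h0 : ∀ k, L k ≤ P n k ∧ P n k ≤ U k) (h1 : ∀ k, L k ≤ P (n + 1) k ∧ P (n + 1) k ≤ U k)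
    (hw : ∀ k, del P G n k ≤ C * w k) (k : ℤ) : del P G (n + 1) k ≤ C * Mop d L U w k := by
  set β : ℝ := 1 - (((L (k - 1) + L k) / 2) ^ d + ((L k + L (k + 1)) / 2) ^ d) / 2 with hβ
  have hLU : ∀ k, L k ≤ U k := fun k => (h0 k).1.trans (h0 k).2
  have q1 : ∀ (m : ℕ), (∀ k, L k ≤ P m k ∧ P m k ≤ U k) → 1 - (Q m (k - 1) + Q m k) / 2 ≤ β := by
    intro m hm
    rw [h.Q_eq m k, h.Q_eq m (k - 1), sub_add_cancel]
    have e1 : ((L (k - 1) + L k) / 2) ^ d ≤ ((P m (k - 1) + P m k) / 2) ^ d :=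
      pow_le_pow_left₀ (by linarith [hL0 (k - 1), hL0 k]) (by linarith [(hm (k - 1)).1, (hm k).1]) _
    have e2 : ((L k + L (k + 1)) / 2) ^ d ≤ ((P m k + P m (k + 1)) / 2) ^ d :=
      pow_le_pow_left₀ (by linarith [hL0 (k + 1), hL0 k]) (by linarith [(hm (k + 1)).1, (hm k).1]) _
    rw [hβ]
    linarith
  have s1 := h.del_succ_le hd n k β (q1 n h0) (q1 (n + 1) h1)
  have s2 := h.eta_le hd n (k - 1) ((U (k - 1) + U k) / 2)
    (by rw [sub_add_cancel]; linarith [(h0 (k - 1)).2, (h0 k).2])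
    (by rw [sub_add_cancel]; linarith [(h1 (k - 1)).2, (h1 k).2])
  have s3 := h.eta_le hd n k ((U k + U (k + 1)) / 2)
    (by linarith [(h0 (k + 1)).2, (h0 k).2]) (by linarith [(h1 (k + 1)).2, (h1 k).2])
  rw [sub_add_cancel] at s2
  have hβ0 : 0 ≤ β := by
    have := q1 n h0
    have := h.Q_le n (k - 1)
    have := h.Q_le n k
    linarith
  have hU0 : ∀ k, 0 ≤ U k := fun k => (hL0 k).trans (hLU k)
  have p2 : (0 : ℝ) ≤ d * ((U (k - 1) + U k) / 2) ^ (d - 1) := by
    have := hU0 (k - 1)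
    have := hU0 k
    positivity
  have p3 : (0 : ℝ) ≤ d * ((U k + U (k + 1)) / 2) ^ (d - 1) := by
    have := hU0 (k + 1)
    have := hU0 k
    positivity
  have s2' := s2.trans (mul_le_mul_of_nonneg_left
    (show (del P G n (k - 1) + del P G n k) / 2 ≤ (C * w (k - 1) + C * w k) / 2 by
      linarith [hw (k - 1), hw k]) p2)
  have s3' := s3.trans (mul_le_mul_of_nonneg_left
    (show (del P G n k + del P G n (k + 1)) / 2 ≤ (C * w k + C * w (k + 1)) / 2 by
      linarith [hw (k + 1), hw k]) p3)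
  have p1 : (0 : ℝ) ≤ d * β ^ (d - 1) := by positivity
  refine s1.trans ?_
  refine (mul_le_mul_of_nonneg_left (show _ ≤ (((d : ℝ) * ((U (k - 1) + U k) / 2) ^ (d - 1)
    * ((C * w (k - 1) + C * w k) / 2)) + ((d : ℝ) * ((U k + U (k + 1)) / 2) ^ (d - 1)
    * ((C * w k + C * w (k + 1)) / 2))) / 2 by linarith) p1).trans (le_of_eq ?_)
  simp only [Mop, ← hβ]
  ring

lemma Sys.support (h : Sys d P Q G H) (hd : 0 < d) (n : ℕ) :
    ∀ k : ℤ, (k ≤ -n → P n k = 1) ∧ ((n : ℤ) < k → P n k = 0) := by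
  induction n with
  | zero =>
    intro k
    rw [h.P_zero]
    constructor
    · intro hk
      rw [if_pos (by simpa using hk)]
    · intro hk
      rw [if_neg (by simp at hk; omega)]
  | succ n ih =>
    intro k
    rw [h.P_succ_eq, T]
    push_cast
    constructor
    · intro hk
      rw [(ih (k - 1)).1 (by omega), (ih k).1 (by omega), (ih (k + 1)).1 (by omega)]
      norm_num [hd.ne']
    · intro hk
      rw [(ih (k - 1)).2 (by omega), (ih k).2 (by omega), (ih (k + 1)).2 (by omega)]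
      norm_num [hd.ne']

lemma Sys.del_support (h : Sys d P Q G H) (hd : 0 < d) (n : ℕ) (k : ℤ)
    (hk : k ∉ Finset.Icc (-(n + 1) : ℤ) (n + 1)) : del P G n k = 0 := by
  simp only [Finset.mem_Icc, not_and_or, not_le] at hk
  have h1 := h.support hd n k
  have h2 := h.support hd (n + 1) k
  have g1 := h.G_le₁ n k
  have g2 := h.G_nonneg n k
  have g3 := h.G_ge n k
  simp only [del]
  push_cast at h1 h2
  rcases hk with hk | hk
  · have e1 := h1.1 (by omega)
    have e2 := h2.1 (by omega)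
    linarith
  · have e1 := h1.2 (by omega)
    have e2 := h2.2 (by omega)
    linarith

/-- exponential decay of the disagreement probabilities from an enclosure and a weight -/
lemma Sys.decay (h : Sys d P Q G H) (hd : 0 < d) {L U w : ℤ → ℝ} {n₀ : ℕ} {ρ : ℝ}
    (hρ : 0 ≤ ρ) (hL0 : ∀ k, 0 ≤ L k) (hU1 : ∀ k, U k ≤ 1)
    (h0 : ∀ k, L k ≤ P n₀ k ∧ P n₀ k ≤ U k)
    (hL : ∀ k, L k ≤ T d L k) (hU : ∀ k, T d U k ≤ U k) (hw0 : ∀ k, 0 < w k)
    (hw : ∀ k, Mop d L U w k ≤ ρ * w k) :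
    ∃ C, 0 ≤ C ∧ ∀ m k, del P G (n₀ + m) k ≤ C * ρ ^ m * w k := by
  refine ⟨∑ k ∈ Finset.Icc (-(n₀ + 1) : ℤ) (n₀ + 1), del P G n₀ k / w k,
    Finset.sum_nonneg fun k _ => div_nonneg (h.del_nonneg n₀ k) (hw0 k).le, ?_⟩
  set C := ∑ k ∈ Finset.Icc (-(n₀ + 1) : ℤ) (n₀ + 1), del P G n₀ k / w k with hC
  have hC0 : 0 ≤ C := Finset.sum_nonneg fun k _ => div_nonneg (h.del_nonneg n₀ k) (hw0 k).le
  intro m
  induction m with
  | zero =>
    intro k
    simp only [add_zero, pow_zero, mul_one]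
    by_cases hk : k ∈ Finset.Icc (-(n₀ + 1) : ℤ) (n₀ + 1)
    · have : del P G n₀ k / w k ≤ C :=
        Finset.single_le_sum (f := fun k => del P G n₀ k / w k)
          (fun k _ => div_nonneg (h.del_nonneg n₀ k) (hw0 k).le) hk
      rwa [div_le_iff₀ (hw0 k)] at this
    · rw [h.del_support hd n₀ k hk]
      exact mul_nonneg hC0 (hw0 k).le
  | succ m ih =>
    intro k
    have e0 := h.enclose hL0 hU1 h0 hL hU (n₀ + m) (by omega)
    have e1 := h.enclose hL0 hU1 h0 hL hU (n₀ + m + 1) (by omega)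
    have := h.del_step hd (n₀ + m) (C * ρ ^ m) hL0 hU1 e0 e1 ih k
    refine this.trans ?_
    calc C * ρ ^ m * Mop d L U w k ≤ C * ρ ^ m * (ρ * w k) :=
          mul_le_mul_of_nonneg_left (hw k) (mul_nonneg hC0 (pow_nonneg hρ _))
      _ = C * ρ ^ (m + 1) * w k := by ring

/-- lower enclosure -/
noncomputable def Lf (a b c e f : ℝ) (k : ℤ) : ℝ :=
  if k ≤ -2 then a else if k = -1 then b else if k = 0 then c else if k = 1 then e
  else if k = 2 then f else 0

/-- upper enclosure -/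
noncomputable def Uf (x y z t : ℝ) (k : ℤ) : ℝ :=
  if k ≤ -2 then 1 else if k = -1 then x else if k = 0 then y else if k = 1 then z else t

/-- weight -/
noncomputable def wf (A B r : ℝ) (k : ℤ) : ℝ :=
  if 1 ≤ k then A * r ^ (k - 1).toNat else B * r ^ (-k).toNat

lemma int_cases (k : ℤ) : k ≤ -4 ∨ k = -3 ∨ k = -2 ∨ k = -1 ∨ k = 0 ∨ k = 1 ∨ k = 2 ∨ k = 3 ∨
    4 ≤ k := by omega

lemma TL_check {a b c e f a' b' c' e' f' : ℝ} {d : ℕ} (hd : 0 < d)
    (h3 : a' ≤ 1 - (1 - (a ^ d + a ^ d) / 2) ^ d)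
    (h2 : a' ≤ 1 - (1 - (a ^ d + ((a + b) / 2) ^ d) / 2) ^ d)
    (h1 : b' ≤ 1 - (1 - (((a + b) / 2) ^ d + ((b + c) / 2) ^ d) / 2) ^ d)
    (h0 : c' ≤ 1 - (1 - (((b + c) / 2) ^ d + ((c + e) / 2) ^ d) / 2) ^ d)
    (h1' : e' ≤ 1 - (1 - (((c + e) / 2) ^ d + ((e + f) / 2) ^ d) / 2) ^ d)
    (h2' : f' ≤ 1 - (1 - (((e + f) / 2) ^ d + (f / 2) ^ d) / 2) ^ d)
    (hf : 0 ≤ f) (hf1 : f ≤ 1)
    (k : ℤ) : Lf a' b' c' e' f' k ≤ T d (Lf a b c e f) k := by
  have hfd : 0 ≤ (f / 2) ^ d := by positivity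
  have hfd1 : (f / 2) ^ d ≤ 1 := pow_le_one₀ (by linarith) (by linarith)
  rcases int_cases k with hk | rfl | rfl | rfl | rfl | rfl | rfl | rfl | hk
  · have e1 : k ≤ -2 := by omega
    have e2 : k - 1 ≤ -2 := by omega
    have e3 : k + 1 ≤ -2 := by omega
    simp only [T, Lf, if_pos e1, if_pos e2, if_pos e3]
    simpa using h3
  · simp only [T, Lf]
    norm_num
    norm_num at h3
    exact h3
  · simp only [T, Lf]
    norm_num
    norm_num at h2
    exact h2
  · simp only [T, Lf]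
    norm_num
    norm_num at h1
    exact h1
  · simp only [T, Lf]
    norm_num
    norm_num at h0
    exact h0
  · simp only [T, Lf]
    norm_num
    norm_num at h1'
    exact h1'
  · simp only [T, Lf]
    norm_num
    norm_num at h2'
    exact h2'
  · simp only [T, Lf]
    norm_num [hd.ne']
    norm_num at hfd hfd1
    exact pow_le_one₀ (by linarith) (by linarith)
  · have e1 : ¬ k ≤ -2 := by omega
    have e2 : ¬ k - 1 ≤ -2 := by omega
    have e3 : ¬ k + 1 ≤ -2 := by omega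
    have f1 : k ≠ -1 ∧ k ≠ 0 ∧ k ≠ 1 ∧ k ≠ 2 := by omega
    have f2 : k - 1 ≠ -1 ∧ k - 1 ≠ 0 ∧ k - 1 ≠ 1 ∧ k - 1 ≠ 2 := by omega
    have f3 : k + 1 ≠ -1 ∧ k + 1 ≠ 0 ∧ k + 1 ≠ 1 ∧ k + 1 ≠ 2 := by omega
    simp only [T, Lf, if_neg e1, if_neg e2, if_neg e3, if_neg f1.1, if_neg f1.2.1, if_neg f1.2.2.1,
      if_neg f1.2.2.2, if_neg f2.1, if_neg f2.2.1, if_neg f2.2.2.1,
      if_neg f2.2.2.2, if_neg f3.1, if_neg f3.2.1, if_neg f3.2.2.1,
      if_neg f3.2.2.2]
    norm_num [hd.ne']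

lemma TU_check {x y z t x' y' z' t' : ℝ} {d : ℕ} (hd : 0 < d)
    (h1 : 1 - (1 - (((1 + x) / 2) ^ d + ((x + y) / 2) ^ d) / 2) ^ d ≤ x')
    (h0 : 1 - (1 - (((x + y) / 2) ^ d + ((y + z) / 2) ^ d) / 2) ^ d ≤ y')
    (h1' : 1 - (1 - (((y + z) / 2) ^ d + ((z + t) / 2) ^ d) / 2) ^ d ≤ z')
    (h2' : 1 - (1 - (((z + t) / 2) ^ d + t ^ d) / 2) ^ d ≤ t')
    (h3' : 1 - (1 - (t ^ d + t ^ d) / 2) ^ d ≤ t')
    (hx : 0 ≤ x) (hx1 : x ≤ 1)
    (k : ℤ) : T d (Uf x y z t) k ≤ Uf x' y' z' t' k := by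
  have hfd : 0 ≤ ((1 + x) / 2) ^ d := by positivity
  have hfd1 : ((1 + x) / 2) ^ d ≤ 1 := pow_le_one₀ (by linarith) (by linarith)
  rcases int_cases k with hk | rfl | rfl | rfl | rfl | rfl | rfl | rfl | hk
  · have e1 : k ≤ -2 := by omega
    have e2 : k - 1 ≤ -2 := by omega
    have e3 : k + 1 ≤ -2 := by omega
    simp only [T, Uf, if_pos e1, if_pos e2, if_pos e3]
    norm_num [hd.ne']
  · simp only [T, Uf]
    norm_num [hd.ne']
  · simp only [T, Uf]
    norm_num
    norm_num at hfd hfd1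
    exact pow_nonneg (by linarith) _
  · simp only [T, Uf]
    norm_num
    norm_num at h1
    exact h1
  · simp only [T, Uf]
    norm_num
    norm_num at h0
    exact h0
  · simp only [T, Uf]
    norm_num
    norm_num at h1'
    exact h1'
  · simp only [T, Uf]
    norm_num
    norm_num at h2'
    exact h2'
  · simp only [T, Uf]
    norm_num
    norm_num at h3'
    exact h3'
  · have e1 : ¬ k ≤ -2 := by omega
    have e2 : ¬ k - 1 ≤ -2 := by omega
    have e3 : ¬ k + 1 ≤ -2 := by omega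
    have f1 : k ≠ -1 ∧ k ≠ 0 ∧ k ≠ 1 := by omega
    have f2 : k - 1 ≠ -1 ∧ k - 1 ≠ 0 ∧ k - 1 ≠ 1 := by omega
    have f3 : k + 1 ≠ -1 ∧ k + 1 ≠ 0 ∧ k + 1 ≠ 1 := by omega
    simp only [T, Uf, if_neg e1, if_neg e2, if_neg e3, if_neg f1.1, if_neg f1.2.1, if_neg f1.2.2,
      if_neg f2.1, if_neg f2.2.1, if_neg f2.2.2,
      if_neg f3.1, if_neg f3.2.1, if_neg f3.2.2]
    norm_num
    norm_num at h3'
    exact h3'

lemma wf_pos {A B r : ℝ} (hA : 0 < A) (hB : 0 < B) (hr : 0 < r) (k : ℤ) : 0 < wf A B r k := by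
  simp only [wf]
  split_ifs <;> positivity

lemma wf_ge_two {A B r : ℝ} (hr : 0 < r) {k : ℤ} (hk : 2 ≤ k) :
    wf A B r (k - 1) = 1 / r * wf A B r k ∧ wf A B r (k + 1) = r * wf A B r k := by
  obtain ⟨n, rfl⟩ : ∃ n : ℕ, k = n + 2 := ⟨(k - 2).toNat, by omega⟩
  have e1 : (1 : ℤ) ≤ (n : ℤ) + 2 - 1 := by omega
  have e2 : (1 : ℤ) ≤ (n : ℤ) + 2 := by omega
  have e3 : (1 : ℤ) ≤ (n : ℤ) + 2 + 1 := by omega
  simp only [wf, if_pos e1, if_pos e2, if_pos e3]
  have f1 : ((n : ℤ) + 2 - 1 - 1).toNat = n := by omega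
  have f2 : ((n : ℤ) + 2 - 1).toNat = n + 1 := by omega
  have f3 : ((n : ℤ) + 2 + 1 - 1).toNat = n + 2 := by omega
  rw [f1, f2, f3]
  constructor
  · field_simp
    ring
  · ring

lemma wf_le_neg_one {A B r : ℝ} (hr : 0 < r) {k : ℤ} (hk : k ≤ -1) :
    wf A B r (k + 1) = 1 / r * wf A B r k ∧ wf A B r (k - 1) = r * wf A B r k := by
  obtain ⟨n, rfl⟩ : ∃ n : ℕ, k = -(n + 1) := ⟨(-k - 1).toNat, by omega⟩
  have e1 : ¬ (1 : ℤ) ≤ -((n : ℤ) + 1) - 1 := by omega
  have e2 : ¬ (1 : ℤ) ≤ -((n : ℤ) + 1) := by omega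
  have e3 : ¬ (1 : ℤ) ≤ -((n : ℤ) + 1) + 1 := by omega
  simp only [wf, if_neg e1, if_neg e2, if_neg e3]
  have f1 : (-(-((n : ℤ) + 1) + 1)).toNat = n := by omega
  have f2 : (-(-((n : ℤ) + 1))).toNat = n + 1 := by omega
  have f3 : (-(-((n : ℤ) + 1) - 1)).toNat = n + 2 := by omega
  rw [f1, f2, f3]
  constructor
  · field_simp
    ring
  · ring

lemma Lf_ge {a b c e f : ℝ} (hba : b ≤ a) (hcb : c ≤ b) (k : ℤ) (hk : k ≤ 0) :
    c ≤ Lf a b c e f k ∧ (k ≤ -1 → b ≤ Lf a b c e f k) ∧ (k ≤ -2 → a ≤ Lf a b c e f k) := by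
  simp only [Lf]
  refine ⟨?_, fun h => ?_, fun h => ?_⟩ <;> split_ifs <;> first | linarith | omega

lemma Lf_nonneg {a b c e f : ℝ} (hf : 0 ≤ f) (he : f ≤ e) (hc : e ≤ c) (hb : c ≤ b) (ha : b ≤ a)
    (k : ℤ) : 0 ≤ Lf a b c e f k := by
  simp only [Lf]
  split_ifs <;> linarith

lemma Lf_le_one {a b c e f : ℝ} (hf : 0 ≤ f) (he : f ≤ e) (hc : e ≤ c) (hb : c ≤ b) (ha : b ≤ a)
    (ha1 : a ≤ 1) (k : ℤ) : Lf a b c e f k ≤ 1 := by
  simp only [Lf]
  split_ifs <;> linarith

lemma Uf_nonneg {x y z t : ℝ} (ht : 0 ≤ t) (hz : t ≤ z) (hy : z ≤ y) (hx : y ≤ x)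
    (k : ℤ) : 0 ≤ Uf x y z t k := by
  simp only [Uf]
  split_ifs <;> linarith

lemma Uf_le_one {x y z t : ℝ} (hz : t ≤ z) (hy : z ≤ y) (hx : y ≤ x) (hx1 : x ≤ 1)
    (k : ℤ) : Uf x y z t k ≤ 1 := by
  simp only [Uf]
  split_ifs <;> linarith

lemma Uf_le {x y z t : ℝ} (hz : t ≤ z) (k : ℤ) (hk : 1 ≤ k) :
    Uf x y z t k ≤ z ∧ (2 ≤ k → Uf x y z t k ≤ t) := by
  simp only [Uf]
  refine ⟨?_, fun h => ?_⟩ <;> split_ifs <;> first | linarith | omega

lemma M_check {a b c e f x y z t A B r ρ : ℝ} {d : ℕ}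
    (hf : 0 ≤ f) (he : f ≤ e) (hc : e ≤ c) (hb : c ≤ b) (ha : b ≤ a) (ha1 : a ≤ 1)
    (ht : 0 ≤ t) (hz : t ≤ z) (hy : z ≤ y) (hx : y ≤ x) (hx1 : x ≤ 1)
    (hA : 0 < A) (hB : 0 < B) (hr : 0 < r)
    (hp : (d : ℝ) ^ 2 / 4 * ((z + t) / 2) ^ (d - 1) * (1 / r + 2 + r) ≤ ρ)
    (h1 : (d : ℝ) ^ 2 / 4 * (1 - (((c + e) / 2) ^ d + ((e + f) / 2) ^ d) / 2) ^ (d - 1)
      * (((y + z) / 2) ^ (d - 1) * (B + A) + ((z + t) / 2) ^ (d - 1) * (A + A * r)) ≤ ρ * A)
    (h0 : (d : ℝ) ^ 2 / 4 * (1 - (((b + c) / 2) ^ d + ((c + e) / 2) ^ d) / 2) ^ (d - 1)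
      * (((x + y) / 2) ^ (d - 1) * (B * r + B) + ((y + z) / 2) ^ (d - 1) * (B + A)) ≤ ρ * B)
    (hm : (d : ℝ) ^ 2 / 4 * (1 - (((a + b) / 2) ^ d + ((b + c) / 2) ^ d) / 2) ^ (d - 1)
      * (1 / r + 2 + r) ≤ ρ)
    (k : ℤ) : Mop d (Lf a b c e f) (Uf x y z t) (wf A B r) k ≤ ρ * wf A B r k := by
  have hL0 := Lf_nonneg hf he hc hb ha
  have hL1 := Lf_le_one hf he hc hb ha ha1
  have hU0 := Uf_nonneg ht hz hy hx
  have hU1 := Uf_le_one hz hy hx hx1
  have hwk := wf_pos hA hB hr k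
  have hd2 : (0 : ℝ) ≤ (d : ℝ) ^ 2 / 4 := by positivity
  have hq : ∀ i j : ℤ, ((Lf a b c e f i + Lf a b c e f j) / 2) ^ d ≤ 1 := fun i j =>
    pow_le_one₀ (by linarith [hL0 i, hL0 j]) (by linarith [hL1 i, hL1 j])
  have hq0 : ∀ i j : ℤ, 0 ≤ ((Lf a b c e f i + Lf a b c e f j) / 2) ^ d := fun i j =>
    pow_nonneg (by linarith [hL0 i, hL0 j]) _
  rcases lt_trichotomy k 0 with hk | rfl | hk
  · -- k ≤ -1
    have hk1 : k ≤ -1 := by omega
    obtain ⟨w1, w2⟩ := wf_le_neg_one (A := A) (B := B) hr hk1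
    have l1 : ((a + b) / 2) ^ d ≤ ((Lf a b c e f (k - 1) + Lf a b c e f k) / 2) ^ d := by
      refine pow_le_pow_left₀ (by linarith) ?_ _
      have := (Lf_ge (e := e) (f := f) ha hb (k - 1) (by omega)).2.2 (by omega)
      have := (Lf_ge (e := e) (f := f) ha hb k (by omega)).2.1 (by omega)
      linarith
    have l2 : ((b + c) / 2) ^ d ≤ ((Lf a b c e f k + Lf a b c e f (k + 1)) / 2) ^ d := by
      refine pow_le_pow_left₀ (by linarith) ?_ _
      have := (Lf_ge (e := e) (f := f) ha hb k (by omega)).2.1 (by omega)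
      have := (Lf_ge (e := e) (f := f) ha hb (k + 1) (by omega)).1
      linarith
    have l3 : (1 - (((Lf a b c e f (k - 1) + Lf a b c e f k) / 2) ^ d
        + ((Lf a b c e f k + Lf a b c e f (k + 1)) / 2) ^ d) / 2) ^ (d - 1)
        ≤ (1 - (((a + b) / 2) ^ d + ((b + c) / 2) ^ d) / 2) ^ (d - 1) :=
      pow_le_pow_left₀ (by linarith [hq (k - 1) k, hq k (k + 1)]) (by linarith) _
    have u1 : ∀ i j : ℤ, ((Uf x y z t i + Uf x y z t j) / 2) ^ (d - 1) ≤ 1 := fun i j =>
      pow_le_one₀ (by linarith [hU0 i, hU0 j]) (by linarith [hU1 i, hU1 j])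
    have hw1 := wf_pos hA hB hr (k - 1)
    have hw2 := wf_pos hA hB hr (k + 1)
    have s1 : ((Uf x y z t (k - 1) + Uf x y z t k) / 2) ^ (d - 1)
        * (wf A B r (k - 1) + wf A B r k)
        + ((Uf x y z t k + Uf x y z t (k + 1)) / 2) ^ (d - 1)
        * (wf A B r k + wf A B r (k + 1)) ≤ (1 / r + 2 + r) * wf A B r k := by
      have t1 : ((Uf x y z t (k - 1) + Uf x y z t k) / 2) ^ (d - 1)
        * (wf A B r (k - 1) + wf A B r k) ≤ 1 * (wf A B r (k - 1) + wf A B r k) :=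
        mul_le_mul_of_nonneg_right (u1 _ _) (by linarith)
      have t2 : ((Uf x y z t k + Uf x y z t (k + 1)) / 2) ^ (d - 1)
        * (wf A B r k + wf A B r (k + 1)) ≤ 1 * (wf A B r k + wf A B r (k + 1)) :=
        mul_le_mul_of_nonneg_right (u1 _ _) (by linarith)
      rw [w1, w2] at *
      linarith
    have hbase : 0 ≤ (1 - (((a + b) / 2) ^ d + ((b + c) / 2) ^ d) / 2) ^ (d - 1) := by
      refine pow_nonneg ?_ _
      have := pow_le_one₀ (n := d) (show 0 ≤ (a + b) / 2 by linarith) (by linarith)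
      have := pow_le_one₀ (n := d) (show 0 ≤ (b + c) / 2 by linarith) (by linarith)
      linarith
    simp only [Mop]
    calc _ ≤ (d : ℝ) ^ 2 / 4 * (1 - (((a + b) / 2) ^ d + ((b + c) / 2) ^ d) / 2) ^ (d - 1)
          * ((1 / r + 2 + r) * wf A B r k) := by
          refine mul_le_mul (mul_le_mul_of_nonneg_left l3 hd2) s1 ?_ (mul_nonneg hd2 hbase)
          have : ∀ i j : ℤ, 0 ≤ ((Uf x y z t i + Uf x y z t j) / 2) ^ (d - 1) := fun i j =>
            pow_nonneg (by linarith [hU0 i, hU0 j]) _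
          exact add_nonneg (mul_nonneg (this _ _) (by linarith)) (mul_nonneg (this _ _) (by linarith))
      _ = ((d : ℝ) ^ 2 / 4 * (1 - (((a + b) / 2) ^ d + ((b + c) / 2) ^ d) / 2) ^ (d - 1)
          * (1 / r + 2 + r)) * wf A B r k := by ring
      _ ≤ ρ * wf A B r k := mul_le_mul_of_nonneg_right hm hwk.le
  · have : Mop d (Lf a b c e f) (Uf x y z t) (wf A B r) 0
        = (d : ℝ) ^ 2 / 4 * (1 - (((b + c) / 2) ^ d + ((c + e) / 2) ^ d) / 2) ^ (d - 1)
      * (((x + y) / 2) ^ (d - 1) * (B * r + B) + ((y + z) / 2) ^ (d - 1) * (B + A)) := by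
      simp [Mop, Lf, Uf, wf]
    rw [this]
    simpa [wf] using h0
  · rcases (show (1 : ℤ) ≤ k by omega).eq_or_lt with rfl | hk1
    · have : Mop d (Lf a b c e f) (Uf x y z t) (wf A B r) 1
          = (d : ℝ) ^ 2 / 4 * (1 - (((c + e) / 2) ^ d + ((e + f) / 2) ^ d) / 2) ^ (d - 1)
      * (((y + z) / 2) ^ (d - 1) * (B + A) + ((z + t) / 2) ^ (d - 1) * (A + A * r)) := by
        simp [Mop, Lf, Uf, wf]
      rw [this]
      simpa [wf] using h1
    · have hk2 : 2 ≤ k := by omega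
      obtain ⟨w1, w2⟩ := wf_ge_two (A := A) (B := B) hr hk2
      have hw1 := wf_pos hA hB hr (k - 1)
      have hw2 := wf_pos hA hB hr (k + 1)
      have u0 : Uf x y z t (k - 1) ≤ z := (Uf_le hz (k - 1) (by omega)).1
      have u0' : Uf x y z t k ≤ t := (Uf_le hz k (by omega)).2 (by omega)
      have u0'' : Uf x y z t (k + 1) ≤ t := (Uf_le hz (k + 1) (by omega)).2 (by omega)
      have u1 : ((Uf x y z t (k - 1) + Uf x y z t k) / 2) ^ (d - 1) ≤ ((z + t) / 2) ^ (d - 1) :=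
        pow_le_pow_left₀ (by linarith [hU0 (k - 1), hU0 k]) (by linarith) _
      have u2 : ((Uf x y z t k + Uf x y z t (k + 1)) / 2) ^ (d - 1) ≤ ((z + t) / 2) ^ (d - 1) :=
        pow_le_pow_left₀ (by linarith [hU0 (k + 1), hU0 k]) (by linarith) _
      have l3 : (1 - (((Lf a b c e f (k - 1) + Lf a b c e f k) / 2) ^ d
        + ((Lf a b c e f k + Lf a b c e f (k + 1)) / 2) ^ d) / 2) ^ (d - 1) ≤ 1 :=
        pow_le_one₀ (by linarith [hq (k - 1) k, hq k (k + 1)])
          (by linarith [hq0 (k - 1) k, hq0 k (k + 1)])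
      have s1 : ((Uf x y z t (k - 1) + Uf x y z t k) / 2) ^ (d - 1)
          * (wf A B r (k - 1) + wf A B r k)
          + ((Uf x y z t k + Uf x y z t (k + 1)) / 2) ^ (d - 1)
          * (wf A B r k + wf A B r (k + 1))
          ≤ ((z + t) / 2) ^ (d - 1) * ((1 / r + 2 + r) * wf A B r k) := by
        have t1 := mul_le_mul_of_nonneg_right u1
          (show 0 ≤ wf A B r (k - 1) + wf A B r k by linarith)
        have t2 := mul_le_mul_of_nonneg_right u2
          (show 0 ≤ wf A B r k + wf A B r (k + 1) by linarith)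
        rw [w1, w2] at *
        linarith
      have hzt : 0 ≤ ((z + t) / 2) ^ (d - 1) := pow_nonneg (by linarith) _
      have hb0 : 0 ≤ (1 - (((Lf a b c e f (k - 1) + Lf a b c e f k) / 2) ^ d
        + ((Lf a b c e f k + Lf a b c e f (k + 1)) / 2) ^ d) / 2) ^ (d - 1) :=
        pow_nonneg (by linarith [hq (k - 1) k, hq k (k + 1)]) _
      have hr3 : 0 < 1 / r + 2 + r := by positivity
      simp only [Mop]
      calc _ ≤ ((d : ℝ) ^ 2 / 4 * 1) * (((z + t) / 2) ^ (d - 1) * ((1 / r + 2 + r) * wf A B r k)) :=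
            mul_le_mul (mul_le_mul_of_nonneg_left l3 hd2) s1
              (add_nonneg (mul_nonneg (pow_nonneg (by linarith [hU0 (k - 1), hU0 k]) _)
                (by linarith)) (mul_nonneg (pow_nonneg (by linarith [hU0 (k + 1), hU0 k]) _)
                (by linarith))) (by positivity)
        _ = ((d : ℝ) ^ 2 / 4 * ((z + t) / 2) ^ (d - 1) * (1 / r + 2 + r)) * wf A B r k := by ring
        _ ≤ ρ * wf A B r k := mul_le_mul_of_nonneg_right hp hwk.le

/-- a box of enclosures in units of `1 / S` -/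
structure Box where
  a : ℕ
  b : ℕ
  c : ℕ
  e : ℕ
  f : ℕ
  x : ℕ
  y : ℕ
  z : ℕ
  t : ℕ

/-- rounded down / up value of `S * (v / (2 S)) ^ d` -/
def qd (d S v : ℕ) : ℕ := v ^ d / (2 ^ d * S ^ (d - 1))
def qu (d S v : ℕ) : ℕ := (v ^ d + (2 ^ d * S ^ (d - 1) - 1)) / (2 ^ d * S ^ (d - 1))

/-- lower-bound test: `a' ≤ S (1 - (1 - (q₁ + q₂) / 2) ^ d)` -/
def lo (d S v₁ v₂ a' : ℕ) : Bool :=
  Nat.ble (a' + qu d S (2 * S - (qd d S v₁ + qd d S v₂))) S
def hi (d S v₁ v₂ a' : ℕ) : Bool :=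
  Nat.ble S (a' + qd d S (2 * S - (qu d S v₁ + qu d S v₂)))

/-- `B` encloses level `n` implies `B'` encloses level `n + 1` -/
def okStep (d S : ℕ) (B B' : Box) : Bool :=
  lo d S (2 * B.a) (2 * B.a) B'.a && lo d S (2 * B.a) (B.a + B.b) B'.a &&
  lo d S (B.a + B.b) (B.b + B.c) B'.b && lo d S (B.b + B.c) (B.c + B.e) B'.c &&
  lo d S (B.c + B.e) (B.e + B.f) B'.e && lo d S (B.e + B.f) B.f B'.f &&
  hi d S (S + B.x) (B.x + B.y) B'.x && hi d S (B.x + B.y) (B.y + B.z) B'.y &&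
  hi d S (B.y + B.z) (B.z + B.t) B'.z && hi d S (B.z + B.t) (2 * B.t) B'.t &&
  hi d S (2 * B.t) (2 * B.t) B'.t && Nat.ble B.f S && Nat.ble B.x S

def chain (d S : ℕ) : Box → List Box → Bool
  | _, [] => true
  | B, B' :: l => okStep d S B B' && chain d S B' l

noncomputable def Box.L (S : ℕ) (B : Box) : ℤ → ℝ :=
  Lf ((B.a : ℝ) / S) ((B.b : ℝ) / S) ((B.c : ℝ) / S) ((B.e : ℝ) / S) ((B.f : ℝ) / S)
noncomputable def Box.U (S : ℕ) (B : Box) : ℤ → ℝ :=
  Uf ((B.x : ℝ) / S) ((B.y : ℝ) / S) ((B.z : ℝ) / S) ((B.t : ℝ) / S)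

lemma qd_le {d S v : ℕ} (hd : 0 < d) (hS : 0 < S) :
    (qd d S v : ℝ) / S ≤ ((v : ℝ) / (2 * S)) ^ d := by
  have h1 : (qd d S v : ℝ) ≤ (v : ℝ) ^ d / (2 ^ d * (S : ℝ) ^ (d - 1)) := by
    have := @Nat.cast_div_le ℝ _ _ _ (v ^ d) (2 ^ d * S ^ (d - 1))
    simpa [qd] using this
  have hS' : (0 : ℝ) < S := by exact_mod_cast hS
  rw [div_le_iff₀ hS']
  refine h1.trans (le_of_eq ?_)
  obtain ⟨d, rfl⟩ : ∃ e, d = e + 1 := ⟨d - 1, by omega⟩
  simp only [Nat.add_sub_cancel]
  rw [div_pow, mul_pow, pow_succ (S : ℝ) d]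
  field_simp

lemma le_qu {d S v : ℕ} (hd : 0 < d) (hS : 0 < S) :
    ((v : ℝ) / (2 * S)) ^ d ≤ (qu d S v : ℝ) / S := by
  have hS' : (0 : ℝ) < S := by exact_mod_cast hS
  have hD : 0 < 2 ^ d * S ^ (d - 1) := by positivity
  have h0 : v ^ d ≤ (2 ^ d * S ^ (d - 1)) * qu d S v := by
    have h := Nat.div_add_mod (v ^ d + (2 ^ d * S ^ (d - 1) - 1)) (2 ^ d * S ^ (d - 1))
    have h' := Nat.mod_lt (v ^ d + (2 ^ d * S ^ (d - 1) - 1)) hD
    unfold qu
    omega
  have h1 : ((v : ℝ)) ^ d ≤ (2 ^ d * (S : ℝ) ^ (d - 1)) * (qu d S v : ℝ) := by exact_mod_cast h0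
  have e : ((v : ℝ) / (2 * S)) ^ d = (v : ℝ) ^ d / (2 ^ d * (S : ℝ) ^ (d - 1)) / S := by
    obtain ⟨d, rfl⟩ : ∃ e, d = e + 1 := ⟨d - 1, by omega⟩
    simp only [Nat.add_sub_cancel]
    rw [div_pow, mul_pow, pow_succ (S : ℝ) d]
    field_simp
  rw [e]
  refine div_le_div_of_nonneg_right ?_ hS'.le
  rw [div_le_iff₀ (by positivity)]
  linarith

lemma lo_sound {d S v₁ v₂ a' : ℕ} (hd : 0 < d) (hS : 0 < S) (h : lo d S v₁ v₂ a' = true)
    {r₁ r₂ : ℝ} (h1 : ((v₁ : ℝ) / (2 * S)) ^ d ≤ r₁) (h2 : ((v₂ : ℝ) / (2 * S)) ^ d ≤ r₂)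
    (h3 : (r₁ + r₂) / 2 ≤ 1) :
    (a' : ℝ) / S ≤ 1 - (1 - (r₁ + r₂) / 2) ^ d := by
  have hS' : (0 : ℝ) < S := by exact_mod_cast hS
  have h' : a' + qu d S (2 * S - (qd d S v₁ + qd d S v₂)) ≤ S := Nat.le_of_ble_eq_true h
  have h'' : (a' : ℝ) + (qu d S (2 * S - (qd d S v₁ + qd d S v₂)) : ℝ) ≤ S := by exact_mod_cast h'
  have k1 := (qd_le (v := v₁) hd hS).trans h1
  have k2 := (qd_le (v := v₂) hd hS).trans h2
  have k3 := le_qu (v := 2 * S - (qd d S v₁ + qd d S v₂)) hd hS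
  have k4 : 1 - (r₁ + r₂) / 2 ≤ ((2 * S - (qd d S v₁ + qd d S v₂) : ℕ) : ℝ) / (2 * S) := by
    have : (2 * S : ℝ) - (qd d S v₁ + qd d S v₂) ≤ ((2 * S - (qd d S v₁ + qd d S v₂) : ℕ) : ℝ) := by
      have : 2 * S ≤ (2 * S - (qd d S v₁ + qd d S v₂)) + (qd d S v₁ + qd d S v₂) := by omega
      have : (2 * S : ℝ) ≤ ((2 * S - (qd d S v₁ + qd d S v₂) : ℕ) : ℝ) + (qd d S v₁ + qd d S v₂) := by
        exact_mod_cast this
      linarith
    rw [le_div_iff₀ (by positivity)]
    rw [div_le_iff₀ hS'] at k1 k2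
    nlinarith
  have k5 : (1 - (r₁ + r₂) / 2) ^ d ≤ (qu d S (2 * S - (qd d S v₁ + qd d S v₂)) : ℝ) / S :=
    (pow_le_pow_left₀ (by linarith) k4 d).trans k3
  have k6 : (a' : ℝ) / S + (qu d S (2 * S - (qd d S v₁ + qd d S v₂)) : ℝ) / S ≤ 1 := by
    rw [← add_div, div_le_one hS']
    exact h''
  linarith

lemma hi_sound {d S v₁ v₂ a' : ℕ} (hd : 0 < d) (hS : 0 < S) (h : hi d S v₁ v₂ a' = true)
    {r₁ r₂ : ℝ} (h1 : r₁ ≤ ((v₁ : ℝ) / (2 * S)) ^ d) (h2 : r₂ ≤ ((v₂ : ℝ) / (2 * S)) ^ d)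
    (h3 : (r₁ + r₂) / 2 ≤ 1) :
    1 - (1 - (r₁ + r₂) / 2) ^ d ≤ (a' : ℝ) / S := by
  have hS' : (0 : ℝ) < S := by exact_mod_cast hS
  have h' : S ≤ a' + qd d S (2 * S - (qu d S v₁ + qu d S v₂)) := Nat.le_of_ble_eq_true h
  have h'' : (S : ℝ) ≤ (a' : ℝ) + (qd d S (2 * S - (qu d S v₁ + qu d S v₂)) : ℝ) := by
    exact_mod_cast h'
  have k1 := h1.trans (le_qu (v := v₁) hd hS)
  have k2 := h2.trans (le_qu (v := v₂) hd hS)
  have k3 := qd_le (v := 2 * S - (qu d S v₁ + qu d S v₂)) hd hS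
  have k4 : ((2 * S - (qu d S v₁ + qu d S v₂) : ℕ) : ℝ) / (2 * S) ≤ 1 - (r₁ + r₂) / 2 := by
    rw [div_le_iff₀ (by positivity)]
    rcases le_total (qu d S v₁ + qu d S v₂) (2 * S) with hc | hc
    · rw [Nat.cast_sub hc]
      push_cast
      rw [le_div_iff₀ hS'] at k1 k2
      nlinarith
    · rw [Nat.sub_eq_zero_of_le hc]
      have : 0 ≤ 1 - (r₁ + r₂) / 2 := by linarith
      push_cast
      positivity
  have k5 : (qd d S (2 * S - (qu d S v₁ + qu d S v₂)) : ℝ) / S ≤ (1 - (r₁ + r₂) / 2) ^ d :=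
    k3.trans (pow_le_pow_left₀ (by positivity) k4 d)
  have k6 : 1 ≤ (a' : ℝ) / S + (qd d S (2 * S - (qu d S v₁ + qu d S v₂)) : ℝ) / S := by
    rw [← add_div, one_le_div hS']
    exact h''
  linarith

lemma okStep_sound {d S : ℕ} (hd : 0 < d) (hS : 0 < S) {B B' : Box}
    (h : okStep d S B B' = true) {f : ℤ → ℝ} (hf0 : ∀ k, 0 ≤ f k) (hf1 : ∀ k, f k ≤ 1)
    (hf : ∀ k, B.L S k ≤ f k ∧ f k ≤ B.U S k) (k : ℤ) :
    B'.L S k ≤ T d f k ∧ T d f k ≤ B'.U S k := by
  have hS' : (0 : ℝ) < S := by exact_mod_cast hS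
  simp only [okStep, Bool.and_eq_true] at h
  obtain ⟨⟨⟨⟨⟨⟨⟨⟨⟨⟨⟨⟨l1, l2⟩, l3⟩, l4⟩, l5⟩, l6⟩, u1⟩, u2⟩, u3⟩, u4⟩, u5⟩, b1⟩, b2⟩ := h
  have hb1 : (B.f : ℝ) ≤ S := by exact_mod_cast Nat.le_of_ble_eq_true b1
  have hb2 : (B.x : ℝ) ≤ S := by exact_mod_cast Nat.le_of_ble_eq_true b2
  have eq2 : ∀ u v : ℕ, ((u : ℝ) / S + (v : ℝ) / S) / 2 = ((u + v : ℕ) : ℝ) / (2 * S) := by
    intro u v
    push_cast
    field_simp
  have eq1 : ∀ u : ℕ, (u : ℝ) / S = ((2 * u : ℕ) : ℝ) / (2 * S) := by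
    intro u
    push_cast
    field_simp
  have eqh : ∀ u : ℕ, (u : ℝ) / S / 2 = ((u : ℕ) : ℝ) / (2 * S) := by
    intro u
    field_simp
  have eq1' : ∀ u : ℕ, (1 + (u : ℝ) / S) / 2 = ((S + u : ℕ) : ℝ) / (2 * S) := by
    intro u
    push_cast
    field_simp
  have LL0 : ∀ k, 0 ≤ B.L S k := by
    intro k
    simp only [Box.L, Lf]
    split_ifs <;> positivity
  have hLf : ∀ k, B.L S k ≤ 1 := fun k => ((hf k).1.trans (hf1 k))
  have La : (B.a : ℝ) / S ≤ 1 := by simpa [Box.L, Lf] using hLf (-2)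
  have Lb : (B.b : ℝ) / S ≤ 1 := by simpa [Box.L, Lf] using hLf (-1)
  have Lc : (B.c : ℝ) / S ≤ 1 := by simpa [Box.L, Lf] using hLf 0
  have Le : (B.e : ℝ) / S ≤ 1 := by simpa [Box.L, Lf] using hLf 1
  have Lf' : (B.f : ℝ) / S ≤ 1 := by simpa [Box.L, Lf] using hLf 2
  have pa : (0 : ℝ) ≤ (B.a : ℝ) / S := by positivity
  have pb : (0 : ℝ) ≤ (B.b : ℝ) / S := by positivity
  have pc : (0 : ℝ) ≤ (B.c : ℝ) / S := by positivity
  have pe : (0 : ℝ) ≤ (B.e : ℝ) / S := by positivity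
  have pf : (0 : ℝ) ≤ (B.f : ℝ) / S := by positivity
  -- truncated upper bounds
  set U' : ℤ → ℝ := fun k => min (B.U S k) 1 with hU'
  have pw : ∀ {s t : ℝ}, 0 ≤ s → s ≤ 1 → 0 ≤ t → t ≤ 1 → ((s + t) / 2) ^ d ≤ 1 := by
    intro s t h1 h2 h3 h4
    exact pow_le_one₀ (by linarith) (by linarith)
  constructor
  · refine le_trans ?_ (T_mono LL0 hf1 (fun k => (hf k).1) k)
    refine TL_check hd ?_ ?_ ?_ ?_ ?_ ?_ (by positivity) Lf' k
    · refine lo_sound hd hS l1 (le_of_eq ?_) (le_of_eq ?_) ?_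
      · rw [← eq1]
      · rw [← eq1]
      · have := pow_le_one₀ (n := d) pa La
        linarith
    · refine lo_sound hd hS l2 (le_of_eq ?_) (le_of_eq ?_) ?_
      · rw [← eq1]
      · rw [← eq2]
      · have := pow_le_one₀ (n := d) pa La
        have := pw pa La pb Lb
        linarith
    · refine lo_sound hd hS l3 (le_of_eq ?_) (le_of_eq ?_) ?_
      · rw [← eq2]
      · rw [← eq2]
      · have := pw pa La pb Lb
        have := pw pb Lb pc Lc
        linarith
    · refine lo_sound hd hS l4 (le_of_eq ?_) (le_of_eq ?_) ?_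
      · rw [← eq2]
      · rw [← eq2]
      · have := pw pb Lb pc Lc
        have := pw pc Lc pe Le
        linarith
    · refine lo_sound hd hS l5 (le_of_eq ?_) (le_of_eq ?_) ?_
      · rw [← eq2]
      · rw [← eq2]
      · have := pw pc Lc pe Le
        have := pw pe Le pf Lf'
        linarith
    · refine lo_sound hd hS l6 (le_of_eq ?_) (le_of_eq ?_) ?_
      · rw [← eq2]
      · rw [← eqh]
      · have := pw pe Le pf Lf'
        have := pow_le_one₀ (n := d) (show 0 ≤ (B.f : ℝ) / S / 2 by positivity) (by linarith)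
        linarith
  · have key : ∀ (v₁ v₂ v₃ a' : ℕ) (k : ℤ), hi d S v₁ v₂ a' = true →
        (f (k - 1) + f k) / 2 ≤ (v₁ : ℝ) / (2 * S) → (f k + f (k + 1)) / 2 ≤ (v₂ : ℝ) / (2 * S) →
        T d f k ≤ (a' : ℝ) / S := by
      intro v₁ v₂ _ a' k hh e1 e2
      refine hi_sound hd hS hh (pow_le_pow_left₀ ?_ e1 d) (pow_le_pow_left₀ ?_ e2 d) ?_
      · linarith [hf0 (k - 1), hf0 k]
      · linarith [hf0 (k + 1), hf0 k]
      · have := pw (hf0 (k - 1)) (hf1 (k - 1)) (hf0 k) (hf1 k)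
        have := pw (hf0 k) (hf1 k) (hf0 (k + 1)) (hf1 (k + 1))
        linarith
    have T1 : T d f k ≤ 1 := by
      have := pw (hf0 (k - 1)) (hf1 (k - 1)) (hf0 k) (hf1 k)
      have := pw (hf0 k) (hf1 k) (hf0 (k + 1)) (hf1 (k + 1))
      have : 0 ≤ (1 - (((f (k - 1) + f k) / 2) ^ d + ((f k + f (k + 1)) / 2) ^ d) / 2) ^ d :=
        pow_nonneg (by linarith) _
      simp only [T]
      linarith
    have v2 : f (-2) ≤ 1 := hf1 (-2)
    have v1 : f (-1) ≤ (B.x : ℝ) / S := by simpa [Box.U, Uf] using (hf (-1)).2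
    have v0 : f 0 ≤ (B.y : ℝ) / S := by simpa [Box.U, Uf] using (hf 0).2
    have w1 : f 1 ≤ (B.z : ℝ) / S := by simpa [Box.U, Uf] using (hf 1).2
    have w2 : ∀ k : ℤ, 2 ≤ k → f k ≤ (B.t : ℝ) / S := by
      intro k hk
      have := (hf k).2
      simp only [Box.U, Uf] at this
      rwa [if_neg (by omega), if_neg (by omega), if_neg (by omega), if_neg (by omega)] at this
    simp only [Box.U, Uf]
    split_ifs with c1 c2 c3 c4
    · exact T1
    · subst c2
      refine key (S + B.x) (B.x + B.y) 0 B'.x (-1) u1 ?_ ?_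
      · rw [← eq1']
        norm_num
        linarith
      · rw [← eq2]
        norm_num
        linarith
    · subst c3
      refine key (B.x + B.y) (B.y + B.z) 0 B'.y 0 u2 ?_ ?_
      · rw [← eq2]
        norm_num
        linarith
      · rw [← eq2]
        norm_num
        linarith
    · subst c4
      refine key (B.y + B.z) (B.z + B.t) 0 B'.z 1 u3 ?_ ?_
      · rw [← eq2]
        norm_num
        linarith
      · rw [← eq2]
        have := w2 2 le_rfl
        norm_num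
        linarith
    · have hk2 : 2 ≤ k := by omega
      rcases hk2.eq_or_lt with rfl | hk3
      · refine key (B.z + B.t) (2 * B.t) 0 B'.t 2 u4 ?_ ?_
        · rw [← eq2]
          have := w2 2 le_rfl
          norm_num
          linarith
        · rw [← eq1]
          have := w2 2 le_rfl
          have := w2 3 (by norm_num)
          norm_num
          linarith
      · refine key (2 * B.t) (2 * B.t) 0 B'.t k u5 ?_ ?_
        · rw [← eq1]
          have := w2 k (by omega)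
          have := w2 (k - 1) (by omega)
          linarith
        · rw [← eq1]
          have := w2 k (by omega)
          have := w2 (k + 1) (by omega)
          linarith

lemma Sys.chain_sound (h : Sys d P Q G H) (hd : 0 < d) {S : ℕ} (hS : 0 < S) (l : List Box) :
    ∀ (B : Box) (n : ℕ), chain d S B l = true → (∀ k, B.L S k ≤ P n k ∧ P n k ≤ B.U S k) →
      ∀ k, (l.getLastD B).L S k ≤ P (n + l.length) k ∧
        P (n + l.length) k ≤ (l.getLastD B).U S k := by
  induction l with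
  | nil => intro B n _ hB; simpa using hB
  | cons B' l ih =>
    intro B n hc hB
    simp only [chain, Bool.and_eq_true] at hc
    have h1 : ∀ k, B'.L S k ≤ P (n + 1) k ∧ P (n + 1) k ≤ B'.U S k := by
      intro k
      rw [h.P_succ_eq]
      exact okStep_sound hd hS hc.1 (h.P_nonneg n) (h.P_le n) hB k
    have h2 := ih B' (n + 1) hc.2 h1
    intro k
    have h3 := h2 k
    rw [List.length_cons, show n + (l.length + 1) = n + 1 + l.length by ring, List.getLastD_cons]
    exact h3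

lemma Sys.init_box (h : Sys d P Q G H) {S : ℕ} (hS : 0 < S) (k : ℤ) :
    (Box.mk S S S 0 0 S S 0 0).L S k ≤ P 0 k ∧ P 0 k ≤ (Box.mk S S S 0 0 S S 0 0).U S k := by
  have hS' : (S : ℝ) ≠ 0 := by exact_mod_cast hS.ne'
  rw [h.P_zero]
  simp only [Box.L, Box.U, Lf, Uf, div_self hS', Nat.cast_zero, zero_div]
  constructor
  · split_ifs <;> first | omega | norm_num
  · split_ifs <;> first | omega | norm_num

/-- decay from a certificate: a chain of boxes ending in an invariant box, and a weight -/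
lemma Sys.decay_cert (h : Sys d P Q G H) (hd : 0 < d) {S : ℕ} (hS : 0 < S) (l : List Box)
    (a b c e f x y z t : ℕ)
    (hc : chain d S (Box.mk S S S 0 0 S S 0 0) (l ++ [Box.mk a b c e f x y z t]) = true)
    (hok : okStep d S (Box.mk a b c e f x y z t) (Box.mk a b c e f x y z t) = true)
    (hfe : f ≤ e) (hec : e ≤ c) (hcb : c ≤ b) (hba : b ≤ a) (haS : a ≤ S)
    (htz : t ≤ z) (hzy : z ≤ y) (hyx : y ≤ x) (hxS : x ≤ S)
    {A B r ρ : ℝ} (hA : 0 < A) (hB : 0 < B) (hr : 0 < r) (hρ : 0 ≤ ρ)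
    (hp : (d : ℝ) ^ 2 / 4 * (((z : ℝ) / S + (t : ℝ) / S) / 2) ^ (d - 1) * (1 / r + 2 + r) ≤ ρ)
    (h1 : (d : ℝ) ^ 2 / 4 * (1 - ((((c : ℝ) / S + (e : ℝ) / S) / 2) ^ d
        + (((e : ℝ) / S + (f : ℝ) / S) / 2) ^ d) / 2) ^ (d - 1)
      * ((((y : ℝ) / S + (z : ℝ) / S) / 2) ^ (d - 1) * (B + A)
        + (((z : ℝ) / S + (t : ℝ) / S) / 2) ^ (d - 1) * (A + A * r)) ≤ ρ * A)
    (h0 : (d : ℝ) ^ 2 / 4 * (1 - ((((b : ℝ) / S + (c : ℝ) / S) / 2) ^ d
        + (((c : ℝ) / S + (e : ℝ) / S) / 2) ^ d) / 2) ^ (d - 1)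
      * ((((x : ℝ) / S + (y : ℝ) / S) / 2) ^ (d - 1) * (B * r + B)
        + (((y : ℝ) / S + (z : ℝ) / S) / 2) ^ (d - 1) * (B + A)) ≤ ρ * B)
    (hm : (d : ℝ) ^ 2 / 4 * (1 - ((((a : ℝ) / S + (b : ℝ) / S) / 2) ^ d
        + (((b : ℝ) / S + (c : ℝ) / S) / 2) ^ d) / 2) ^ (d - 1)
      * (1 / r + 2 + r) ≤ ρ) :
    ∃ (n₀ : ℕ) (C : ℝ), 0 ≤ C ∧ ∀ m k, del P G (n₀ + m) k ≤ C * ρ ^ m * wf A B r k := by
  have hS' : (0 : ℝ) < S := by exact_mod_cast hS
  have cast : ∀ {u v : ℕ}, u ≤ v → (u : ℝ) / S ≤ (v : ℝ) / S := by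
    intro u v huv
    have : (u : ℝ) ≤ v := by exact_mod_cast huv
    gcongr
  have cast1 : ∀ {u : ℕ}, u ≤ S → (u : ℝ) / S ≤ 1 := by
    intro u huv
    have : (u : ℝ) ≤ S := by exact_mod_cast huv
    rwa [div_le_one hS']
  have henc := h.chain_sound hd hS _ _ 0 hc (h.init_box hS)
  rw [List.getLastD_concat] at henc
  set Bx := Box.mk a b c e f x y z t with hBx
  have hf0 : (0 : ℝ) ≤ (f : ℝ) / S := by positivity
  have ht0 : (0 : ℝ) ≤ (t : ℝ) / S := by positivity
  have L0 : ∀ k, 0 ≤ Bx.L S k := Lf_nonneg hf0 (cast hfe) (cast hec) (cast hcb) (cast hba)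
  have L1 : ∀ k, Bx.L S k ≤ 1 := Lf_le_one hf0 (cast hfe) (cast hec) (cast hcb) (cast hba) (cast1 haS)
  have U0 : ∀ k, 0 ≤ Bx.U S k := Uf_nonneg ht0 (cast htz) (cast hzy) (cast hyx)
  have U1 : ∀ k, Bx.U S k ≤ 1 := Uf_le_one (cast htz) (cast hzy) (cast hyx) (cast1 hxS)
  have LU : ∀ k, Bx.L S k ≤ Bx.U S k := fun k => (henc k).1.trans (henc k).2
  refine ⟨0 + (l ++ [Bx]).length, ?_⟩
  obtain ⟨C, hC, hdec⟩ := h.decay hd hρ L0 U1 henc
    (fun k => (okStep_sound hd hS hok L0 L1 (fun k => ⟨le_rfl, LU k⟩) k).1)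
    (fun k => (okStep_sound hd hS hok U0 U1 (fun k => ⟨LU k, le_rfl⟩) k).2)
    (wf_pos hA hB hr)
    (M_check hf0 (cast hfe) (cast hec) (cast hcb) (cast hba) (cast1 haS) ht0 (cast htz)
      (cast hzy) (cast hyx) (cast1 hxS) hA hB hr hp h1 h0 hm)
  exact ⟨C, hC, hdec⟩

lemma Sys.decay_3 (h : Sys 3 P Q G H) :
    ∃ (n₀ : ℕ) (C : ℝ), 0 ≤ C ∧ ∀ m k, del P G (n₀ + m) k
      ≤ C * (999 / 1000 : ℝ) ^ m * wf 1 (37 / 50) (3 / 100) k := by
  refine h.decay_cert (S := 10000000) (by norm_num) (by norm_num)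
    [⟨10000000, 10000000, 9162597, 1760253, 0, 10000000, 9162598, 1760254, 0⟩,
      ⟨10000000, 9997816, 8902608, 2258489, 10222, 9997818, 8902611, 2258494, 10224⟩,
      ⟨9999999, 9995221, 8815415, 2405157, 21878, 9995222, 8815421, 2405165, 21882⟩,
      ⟨9999999, 9993996, 8781898, 2444054, 26781, 9993997, 8781906, 2444066, 26785⟩,
      ⟨9999999, 9993470, 8765805, 2448442, 28255, 9993471, 8765814, 2448458, 28261⟩,
      ⟨9999999, 9993210, 8755560, 2441734, 28457, 9993211, 8755571, 2441753, 28461⟩,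
      ⟨9999999, 9993044, 8747377, 2431607, 28233, 9993045, 8747390, 2431630, 28238⟩,
      ⟨9999999, 9992910, 8740004, 2420602, 27881, 9992912, 8740019, 2420627, 27885⟩,
      ⟨9999999, 9992789, 8733024, 2409555, 27496, 9992791, 8733041, 2409582, 27502⟩,
      ⟨9999999, 9992674, 8726296, 2398737, 27113, 9992675, 8726315, 2398767, 27118⟩,
      ⟨9999999, 9992562, 8719773, 2388233, 26742, 9992563, 8719793, 2388265, 26747⟩,
      ⟨9999999, 9992452, 8713435, 2378062, 26384, 9992453, 8713456, 2378097, 26389⟩,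
      ⟨9999999, 9992344, 8707274, 2368225, 26041, 9992345, 8707296, 2368261, 26046⟩,
      ⟨9999999, 9992238, 8701284, 2358713, 25711, 9992240, 8701308, 2358752, 25717⟩,
      ⟨9999999, 9992135, 8695462, 2349517, 25395, 9992136, 8695488, 2349558, 25401⟩,
      ⟨9999999, 9992033, 8689805, 2340628, 25093, 9992034, 8689833, 2340671, 25098⟩,
      ⟨9999999, 9991933, 8684309, 2332038, 24804, 9991935, 8684338, 2332083, 24809⟩,
      ⟨9999999, 9991836, 8678970, 2323735, 24525, 9991837, 8679001, 2323782, 24531⟩,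
      ⟨9999999, 9991740, 8673785, 2315710, 24259, 9991742, 8673817, 2315760, 24264⟩,
      ⟨9999999, 9991647, 8668749, 2307954, 24003, 9991649, 8668784, 2308007, 24008⟩,
      ⟨9999999, 9991556, 8663861, 2300459, 23757, 9991557, 8663897, 2300515, 23763⟩,
      ⟨9999999, 9991467, 8659116, 2293217, 23522, 9991468, 8659153, 2293274, 23528⟩,
      ⟨9999999, 9991379, 8654511, 2286218, 23296, 9991381, 8654549, 2286276, 23301⟩,
      ⟨9999999, 9991294, 8650042, 2279455, 23079, 9991296, 8650081, 2279514, 23084⟩,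
      ⟨9999999, 9991211, 8645706, 2272919, 22871, 9991213, 8645746, 2272979, 22876⟩,
      ⟨9999999, 9991130, 8641500, 2266603, 22670, 9991132, 8641541, 2266665, 22675⟩,
      ⟨9999999, 9991050, 8637420, 2260500, 22477, 9991052, 8637462, 2260564, 22484⟩,
      ⟨9999999, 9990973, 8633462, 2254602, 22292, 9990975, 8633506, 2254666, 22298⟩,
      ⟨9999999, 9990898, 8629625, 2248903, 22114, 9990900, 8629669, 2248970, 22121⟩,
      ⟨9999999, 9990824, 8625904, 2243397, 21945, 9990826, 8625949, 2243464, 21950⟩,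
      ⟨9999999, 9990753, 8622296, 2238076, 21780, 9990755, 8622342, 2238143, 21786⟩,
      ⟨9999999, 9990683, 8618798, 2232934, 21623, 9990685, 8618846, 2233002, 21628⟩,
      ⟨9999999, 9990615, 8615408, 2227964, 21470, 9990617, 8615456, 2228035, 21477⟩,
      ⟨9999999, 9990549, 8612122, 2223163, 21325, 9990551, 8612171, 2223235, 21332⟩,
      ⟨9999999, 9990484, 8608937, 2218523, 21184, 9990486, 8608987, 2218596, 21191⟩,
      ⟨9999999, 9990422, 8605850, 2214039, 21049, 9990424, 8605901, 2214113, 21056⟩,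
      ⟨9999999, 9990361, 8602860, 2209706, 20920, 9990363, 8602912, 2209781, 20926⟩,
      ⟨9999999, 9990301, 8599962, 2205518, 20795, 9990303, 8600015, 2205596, 20802⟩,
      ⟨9999999, 9990244, 8597155, 2201473, 20675, 9990246, 8597208, 2201550, 20680⟩,
      ⟨9999999, 9990187, 8594435, 2197563, 20559, 9990190, 8594489, 2197640, 20565⟩,
      ⟨9999999, 9990133, 8591800, 2193784, 20447, 9990135, 8591855, 2193863, 20454⟩,
      ⟨9999999, 9990080, 8589248, 2190131, 20339, 9990082, 8589304, 2190212, 20346⟩,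
      ⟨9999999, 9990028, 8586776, 2186602, 20236, 9990030, 8586833, 2186684, 20243⟩]
    9999996 9988385 8512273 2083811 17379 9991248 8590762 2186987 21108
    (by decide +kernel) (by decide +kernel)
    (by norm_num) (by norm_num) (by norm_num) (by norm_num) (by norm_num) (by norm_num)
    (by norm_num) (by norm_num) (by norm_num) (by norm_num) (by norm_num) (by norm_num)
    (by norm_num) (by norm_num) (by norm_num) (by norm_num) (by norm_num)

lemma Sys.decay_4 (h : Sys 4 P Q G H) :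
    ∃ (n₀ : ℕ) (C : ℝ), 0 ≤ C ∧ ∀ m k, del P G (n₀ + m) k
      ≤ C * (457 / 500 : ℝ) ^ m * wf 1 (47 / 100) (1 / 100) k := by
  refine h.decay_cert (S := 10000000) (by norm_num) (by norm_num)
    [⟨10000000, 10000000, 9517202, 1192617, 0, 10000000, 9517203, 1192618, 0⟩,
      ⟨10000000, 9999953, 9347318, 1546073, 251, 9999954, 9347320, 1546079, 254⟩]
    9999504 9999121 9165533 1546008 216 10000000 9347359 1850422 14959
    (by decide +kernel) (by decide +kernel)
    (by norm_num) (by norm_num) (by norm_num) (by norm_num) (by norm_num) (by norm_num)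
    (by norm_num) (by norm_num) (by norm_num) (by norm_num) (by norm_num) (by norm_num)
    (by norm_num) (by norm_num) (by norm_num) (by norm_num) (by norm_num)

lemma Sys.decay_5 (h : Sys 5 P Q G H) :
    ∃ (n₀ : ℕ) (C : ℝ), 0 ≤ C ∧ ∀ m k, del P G (n₀ + m) k
      ≤ C * (371 / 500 : ℝ) ^ m * wf 1 (19 / 50) (1 / 100) k := by
  refine h.decay_cert (S := 10000000) (by norm_num) (by norm_num)
    [⟨10000000, 10000000, 9733370, 757214, 0, 10000000, 9733371, 757215, 0⟩]
    9973184 9973171 9449614 757187 0 10000000 9733387 1248696 29056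
    (by decide +kernel) (by decide +kernel)
    (by norm_num) (by norm_num) (by norm_num) (by norm_num) (by norm_num) (by norm_num)
    (by norm_num) (by norm_num) (by norm_num) (by norm_num) (by norm_num) (by norm_num)
    (by norm_num) (by norm_num) (by norm_num) (by norm_num) (by norm_num)

lemma Sys.decay_6 (h : Sys 6 P Q G H) :
    ∃ (n₀ : ℕ) (C : ℝ), 0 ≤ C ∧ ∀ m k, del P G (n₀ + m) k
      ≤ C * (733 / 1000 : ℝ) ^ m * wf 1 (77 / 100) (1 / 100) k := by
  refine h.decay_cert (S := 10000000) (by norm_num) (by norm_num)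
    []
    9870856 9870855 9421232 0 0 10000000 10000000 860670 65609
    (by decide +kernel) (by decide +kernel)
    (by norm_num) (by norm_num) (by norm_num) (by norm_num) (by norm_num) (by norm_num)
    (by norm_num) (by norm_num) (by norm_num) (by norm_num) (by norm_num) (by norm_num)
    (by norm_num) (by norm_num) (by norm_num) (by norm_num) (by norm_num)

lemma Sys.decay_7 (h : Sys 7 P Q G H) :
    ∃ (n₀ : ℕ) (C : ℝ), 0 ≤ C ∧ ∀ m k, del P G (n₀ + m) k
      ≤ C * (457 / 1000 : ℝ) ^ m * wf 1 (43 / 50) (1 / 100) k := by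
  refine h.decay_cert (S := 10000000) (by norm_num) (by norm_num)
    []
    9879042 9879042 9656591 0 0 10000000 10000000 428801 43749
    (by decide +kernel) (by decide +kernel)
    (by norm_num) (by norm_num) (by norm_num) (by norm_num) (by norm_num) (by norm_num)
    (by norm_num) (by norm_num) (by norm_num) (by norm_num) (by norm_num) (by norm_num)
    (by norm_num) (by norm_num) (by norm_num) (by norm_num) (by norm_num)

lemma Sys.decay_8 (h : Sys 8 P Q G H) :
    ∃ (n₀ : ℕ) (C : ℝ), 0 ≤ C ∧ ∀ m k, del P G (n₀ + m) k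
      ≤ C * (53 / 200 : ℝ) ^ m * wf 1 (83 / 100) (1 / 100) k := by
  refine h.decay_cert (S := 10000000) (by norm_num) (by norm_num)
    []
    9904775 9904775 9802273 0 0 10000000 10000000 219858 26674
    (by decide +kernel) (by decide +kernel)
    (by norm_num) (by norm_num) (by norm_num) (by norm_num) (by norm_num) (by norm_num)
    (by norm_num) (by norm_num) (by norm_num) (by norm_num) (by norm_num) (by norm_num)
    (by norm_num) (by norm_num) (by norm_num) (by norm_num) (by norm_num)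

lemma Sys.decay_9 (h : Sys 9 P Q G H) :
    ∃ (n₀ : ℕ) (C : ℝ), 0 ≤ C ∧ ∀ m k, del P G (n₀ + m) k
      ≤ C * (29 / 200 : ℝ) ^ m * wf 1 (13 / 20) (1 / 100) k := by
  refine h.decay_cert (S := 10000000) (by norm_num) (by norm_num)
    []
    9934480 9934480 9889884 0 0 10000000 10000000 115227 15302
    (by decide +kernel) (by decide +kernel)
    (by norm_num) (by norm_num) (by norm_num) (by norm_num) (by norm_num) (by norm_num)
    (by norm_num) (by norm_num) (by norm_num) (by norm_num) (by norm_num) (by norm_num)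
    (by norm_num) (by norm_num) (by norm_num) (by norm_num) (by norm_num)

lemma Sys.decay_10 (h : Sys 10 P Q G H) :
    ∃ (n₀ : ℕ) (C : ℝ), 0 ≤ C ∧ ∀ m k, del P G (n₀ + m) k
      ≤ C * (39 / 500 : ℝ) ^ m * wf 1 (47 / 100) (1 / 100) k := by
  refine h.decay_cert (S := 10000000) (by norm_num) (by norm_num)
    []
    9958897 9958897 9940001 0 0 10000000 10000000 61086 8391
    (by decide +kernel) (by decide +kernel)
    (by norm_num) (by norm_num) (by norm_num) (by norm_num) (by norm_num) (by norm_num)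
    (by norm_num) (by norm_num) (by norm_num) (by norm_num) (by norm_num) (by norm_num)
    (by norm_num) (by norm_num) (by norm_num) (by norm_num) (by norm_num)

lemma Sys.decay_11 (h : Sys 11 P Q G H) :
    ∃ (n₀ : ℕ) (C : ℝ), 0 ≤ C ∧ ∀ m k, del P G (n₀ + m) k
      ≤ C * (21 / 500 : ℝ) ^ m * wf 1 (8 / 25) (1 / 100) k := by
  refine h.decay_cert (S := 10000000) (by norm_num) (by norm_num)
    []
    9975707 9975707 9967682 0 0 10000000 10000000 32535 4455
    (by decide +kernel) (by decide +kernel)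
    (by norm_num) (by norm_num) (by norm_num) (by norm_num) (by norm_num) (by norm_num)
    (by norm_num) (by norm_num) (by norm_num) (by norm_num) (by norm_num) (by norm_num)
    (by norm_num) (by norm_num) (by norm_num) (by norm_num) (by norm_num)

end System

section Large

lemma cube_le (d : ℕ) (hd : 12 ≤ d) : 64 * d ^ 3 ≤ 27 * 2 ^ d := by
  induction d, hd using Nat.le_induction with
  | base => norm_num
  | succ d hd ih =>
    have h1 : (d + 1) ^ 3 ≤ 2 * d ^ 3 := by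
      have : 3 * d ^ 2 + 3 * d + 1 ≤ d ^ 3 := by nlinarith [Nat.mul_le_mul hd hd]
      calc (d + 1) ^ 3 = d ^ 3 + (3 * d ^ 2 + 3 * d + 1) := by ring
        _ ≤ 2 * d ^ 3 := by omega
    calc 64 * (d + 1) ^ 3 ≤ 64 * (2 * d ^ 3) := Nat.mul_le_mul_left _ h1
      _ = 2 * (64 * d ^ 3) := by ring
      _ ≤ 2 * (27 * 2 ^ d) := Nat.mul_le_mul_left _ ih
      _ = 27 * 2 ^ (d + 1) := by ring

lemma one_add_pow_mul_le {y : ℝ} (hy : 0 ≤ y) (m : ℕ) (hm : (m : ℝ) * y < 1) (hy1 : y ≤ 1) :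
    (1 + y) ^ m * (1 - m * y) ≤ 1 := by
  have h1 : 1 - m * y ≤ (1 - y) ^ m := by
    have := one_add_mul_le_pow (a := -y) (by linarith) m
    calc 1 - m * y = 1 + m * (-y) := by ring
      _ ≤ (1 + -y) ^ m := this
      _ = (1 - y) ^ m := by ring
  have h2 : (0 : ℝ) ≤ (1 + y) ^ m := by positivity
  calc (1 + y) ^ m * (1 - m * y) ≤ (1 + y) ^ m * (1 - y) ^ m := mul_le_mul_of_nonneg_left h1 h2
    _ = (1 - y ^ 2) ^ m := by rw [← mul_pow]; ring
    _ ≤ 1 := pow_le_one₀ (by nlinarith) (by nlinarith [sq_nonneg y])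

variable {d : ℕ} {P Q G H : ℕ → ℤ → ℝ}

set_option maxHeartbeats 2000000 in
lemma Sys.decay_large (h : Sys d P Q G H) (hd : 12 ≤ d) :
    ∃ (n₀ : ℕ) (C : ℝ), 0 ≤ C ∧ ∀ m k, del P G (n₀ + m) k
      ≤ C * (1 / 2 : ℝ) ^ m * wf 1 1 (1 / 2) k := by
  have hd0 : 0 < d := by omega
  have hD : (12 : ℝ) ≤ d := by exact_mod_cast hd
  have hN : (0 : ℝ) < 2 ^ d := by positivity
  have hc : 64 * (d : ℝ) ^ 3 ≤ 27 * 2 ^ d := by exact_mod_cast cube_le d hd
  set ε : ℝ := 2 * d / 2 ^ d with hε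
  have hε0 : 0 < ε := by positivity
  have hεN : ε * 2 ^ d = 2 * d := by rw [hε]; field_simp
  -- `d ^ 2 * ε ≤ 27 / 32`
  have h2 : (d : ℝ) ^ 2 * ε ≤ 27 / 32 := by
    rw [hε, ← mul_div_assoc, div_le_iff₀ hN]
    nlinarith
  have h1 : (d : ℝ) * ε ≤ 9 / 128 := by nlinarith
  have h0 : ε ≤ 3 / 512 := by nlinarith
  have hN2 : (d : ℝ) ^ 2 / 2 ^ d ≤ 9 / 256 := by
    rw [div_le_iff₀ hN]
    nlinarith [mul_pos (show (0 : ℝ) < d by linarith) (show (0 : ℝ) < d by linarith)]
  have hNd : (2 : ℝ) ^ d = 2 * 2 ^ (d - 1) := by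
    rw [← pow_succ']
    congr 1
    omega
  have hNpos : (0 : ℝ) < 2 ^ (d - 1) := by positivity
  -- powers
  have p1 : (1 + ε) ^ d ≤ 2 := by
    have := one_add_pow_mul_le hε0.le d (by linarith) (by linarith)
    have h3 : (0 : ℝ) ≤ (1 + ε) ^ d := by positivity
    nlinarith
  have p1' : (1 + ε) ^ (d - 1) ≤ 2 :=
    (pow_le_pow_right₀ (by linarith) (Nat.sub_le d 1)).trans p1
  have p2 : (1 + d * ε) ^ d ≤ 32 / 5 := by
    have := one_add_pow_mul_le (y := d * ε) (by positivity) d (by nlinarith) (by linarith)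
    have h3 : (0 : ℝ) ≤ (1 + d * ε) ^ d := by positivity
    have h4 : (d : ℝ) * (d * ε) ≤ 27 / 32 := by nlinarith
    nlinarith
  have p2' : (1 + d * ε) ^ (d - 1) ≤ 32 / 5 :=
    (pow_le_pow_right₀ (by nlinarith) (Nat.sub_le d 1)).trans p2
  -- small powers
  have e1 : ε ^ (d - 1) ≤ ε ^ 2 := pow_le_pow_of_le_one hε0.le (by linarith) (by omega)
  have e2 : (d * ε) ^ (d - 1) ≤ (d * ε) ^ 3 :=
    pow_le_pow_of_le_one (by positivity) (by linarith) (by omega)
  have e3 : ε ^ d ≤ 1 / 2 ^ d := by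
    rw [← one_div_pow]
    exact pow_le_pow_left₀ hε0.le (by linarith) d
  have ed : ε ^ d = ε ^ (d - 1) * ε := by
    rw [← pow_succ]
    congr 1
    omega
  have dd : (d * ε) ^ d = (d * ε) ^ (d - 1) * (d * ε) := by
    rw [← pow_succ]
    congr 1
    omega
  -- Bernoulli for `(1 - ε) ^ d`
  have b1 : 1 - d * ε ≤ (1 - ε) ^ d := by
    have := one_add_mul_le_pow (a := -ε) (by linarith) d
    calc 1 - d * ε = 1 + d * (-ε) := by ring
      _ ≤ (1 + -ε) ^ d := this
      _ = (1 - ε) ^ d := by ring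
  have b2 : (1 - ε) ^ d ≤ 1 := pow_le_one₀ (by linarith) (by linarith)
  have b3 : (0 : ℝ) ≤ (1 - ε) ^ d := pow_nonneg (by linarith) _
  have q0 : (0 : ℝ) ≤ ((1 - ε + 0) / 2) ^ d := pow_nonneg (by linarith) _
  have q1 : ((1 - ε + 0) / 2) ^ d ≤ 1 := pow_le_one₀ (by linarith) (by linarith)
  have zd : (0 : ℝ) ^ d = 0 := zero_pow hd0.ne'
  have z0 : ((0 + 0) / 2 : ℝ) ^ d = 0 := by rw [add_zero, zero_div, zd]
  -- `(d ε) ^ d ≤ ε`
  have c1 : (d * ε) ^ d ≤ ε := by
    rw [dd]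
    have : (d * ε) ^ (d - 1) * d ≤ 1 := by
      calc (d * ε) ^ (d - 1) * d ≤ (d * ε) ^ 3 * d := by gcongr
        _ = (d ^ 2 * ε) * (d * ε) ^ 2 := by ring
        _ ≤ (27 / 32) * (9 / 128) ^ 2 := by gcongr
        _ ≤ 1 := by norm_num
    calc (d * ε) ^ (d - 1) * (d * ε) = ((d * ε) ^ (d - 1) * d) * ε := by ring
      _ ≤ 1 * ε := by gcongr
      _ = ε := one_mul ε
  have c2 : (1 - (1 - ε) ^ d) ^ d ≤ ε :=
    (pow_le_pow_left₀ (by linarith) (by linarith) d).trans c1
  have half : ∀ u : ℝ, (u / 2) ^ d = u ^ d / 2 ^ d := fun u => div_pow u 2 d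
  have half' : ∀ u : ℝ, (u / 2) ^ (d - 1) = u ^ (d - 1) / 2 ^ (d - 1) := fun u => div_pow u 2 _
  have c3 : (1 - ((1 - ε) ^ d + ((1 - ε + 0) / 2) ^ d) / 2) ^ d ≤ ε := by
    calc (1 - ((1 - ε) ^ d + ((1 - ε + 0) / 2) ^ d) / 2) ^ d ≤ ((1 + d * ε) / 2) ^ d :=
          pow_le_pow_left₀ (by linarith) (by linarith) d
      _ = (1 + d * ε) ^ d / 2 ^ d := half _
      _ ≤ (32 / 5) / 2 ^ d := by gcongr
      _ ≤ 2 * d / 2 ^ d := by gcongr; linarith
  have c4 : d * ε ^ d ≤ ε := by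
    rw [ed]
    calc d * (ε ^ (d - 1) * ε) ≤ d * (ε ^ 2 * ε) := by gcongr
      _ = ((d * ε) * ε) * ε := by ring
      _ ≤ (9 / 128 * (3 / 512)) * ε := by gcongr
      _ ≤ ε := by linarith
  have eqmid : ∀ u : ℝ, (u + u) / 2 = u := fun u => by ring
  have hL0 : ∀ k, 0 ≤ Lf (1 - ε) (1 - ε) (1 - ε) 0 0 k :=
    Lf_nonneg le_rfl le_rfl (by linarith) le_rfl le_rfl
  have hU1 : ∀ k, Uf 1 1 ε ε k ≤ 1 := Uf_le_one le_rfl (by linarith) le_rfl le_rfl
  refine ⟨0, ?_⟩
  refine h.decay (L := Lf (1 - ε) (1 - ε) (1 - ε) 0 0) (U := Uf 1 1 ε ε) (w := wf 1 1 (1 / 2))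
    hd0 (by norm_num) hL0 hU1 ?_ (TL_check hd0 ?_ ?_ ?_ ?_ ?_ ?_ le_rfl zero_le_one)
    (TU_check hd0 ?_ ?_ ?_ ?_ ?_ zero_le_one le_rfl)
    (wf_pos one_pos one_pos (by norm_num))
    (M_check le_rfl le_rfl (by linarith) le_rfl le_rfl (by linarith) hε0.le le_rfl (by linarith)
      le_rfl le_rfl one_pos one_pos (by norm_num) ?_ ?_ ?_ ?_)
  · intro k
    rw [h.P_zero]
    simp only [Lf, Uf]
    constructor
    · split_ifs <;> first | omega | linarith
    · split_ifs <;> first | omega | linarith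
  · rw [eqmid ((1 - ε) ^ d)]
    linarith
  · rw [eqmid (1 - ε), eqmid ((1 - ε) ^ d)]
    linarith
  · rw [eqmid (1 - ε), eqmid ((1 - ε) ^ d)]
    linarith
  · rw [eqmid (1 - ε)]
    linarith
  · rw [z0, add_zero]
    have : (1 - ((1 - ε + 0) / 2) ^ d / 2) ^ d ≤ 1 :=
      pow_le_one₀ (by linarith) (by linarith)
    linarith
  · rw [z0, zero_div, zd, add_zero, zero_div, sub_zero, one_pow, sub_self]
  · have : 0 ≤ (1 - (((1 + 1) / 2 : ℝ) ^ d + ((1 + 1) / 2) ^ d) / 2) ^ d := by norm_num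
    linarith
  · have h4 : ((1 + ε) / 2) ^ d ≤ 1 := pow_le_one₀ (by linarith) (by linarith)
    have : 0 ≤ (1 - (((1 + 1) / 2 : ℝ) ^ d + ((1 + ε) / 2) ^ d) / 2) ^ d := by
      refine pow_nonneg ?_ _
      norm_num
      norm_num at h4
      linarith
    linarith
  · -- z-condition
    have h4 : ((1 + ε) / 2) ^ d ≤ 2 / 2 ^ d := by
      rw [half]
      gcongr
    have h5 : ((1 + ε) / 2) ^ d ≤ 1 := pow_le_one₀ (by linarith) (by linarith)
    have h6 : ((ε + ε) / 2) ^ d ≤ 1 / 2 ^ d := by rw [eqmid ε]; exact e3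
    have h7 : (0 : ℝ) ≤ ((1 + ε) / 2) ^ d := by positivity
    have h8 : (0 : ℝ) ≤ ((ε + ε) / 2) ^ d := by positivity
    have h9 : ((ε + ε) / 2) ^ d ≤ 1 := pow_le_one₀ (by linarith) (by linarith)
    have h10 := one_add_mul_le_pow (a := -((((1 + ε) / 2) ^ d + ((ε + ε) / 2) ^ d) / 2))
      (by linarith) d
    have h11 : (1 + -((((1 + ε) / 2) ^ d + ((ε + ε) / 2) ^ d) / 2)) ^ d
      = (1 - (((1 + ε) / 2) ^ d + ((ε + ε) / 2) ^ d) / 2) ^ d := by ring
    rw [h11] at h10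
    have h12 : (d : ℝ) * ((((1 + ε) / 2) ^ d + ((ε + ε) / 2) ^ d) / 2) ≤ ε := by
      calc (d : ℝ) * ((((1 + ε) / 2) ^ d + ((ε + ε) / 2) ^ d) / 2)
          ≤ d * ((2 / 2 ^ d + 1 / 2 ^ d) / 2) := by gcongr
        _ = (3 / 2) * d / 2 ^ d := by ring
        _ ≤ 2 * d / 2 ^ d := by gcongr; linarith
    linarith
  · rw [eqmid ε]
    have h10 := one_add_mul_le_pow (a := -(ε ^ d)) (by
      have : ε ^ d ≤ 1 := pow_le_one₀ hε0.le (by linarith)
      linarith) d
    have h11 : (1 - (ε ^ d + ε ^ d) / 2) ^ d = (1 + -(ε ^ d)) ^ d := by ring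
    rw [h11]
    linarith
  · have h10 := one_add_mul_le_pow (a := -(ε ^ d)) (by
      have : ε ^ d ≤ 1 := pow_le_one₀ hε0.le (by linarith)
      linarith) d
    have h11 : (1 - (ε ^ d + ε ^ d) / 2) ^ d = (1 + -(ε ^ d)) ^ d := by ring
    rw [h11]
    linarith
  · -- hp
    rw [eqmid ε]
    calc (d : ℝ) ^ 2 / 4 * ε ^ (d - 1) * (1 / (1 / 2) + 2 + 1 / 2)
        ≤ (d : ℝ) ^ 2 / 4 * ε ^ 2 * (1 / (1 / 2) + 2 + 1 / 2) := by gcongr
      _ = 9 / 8 * (d * ε) ^ 2 := by ring
      _ ≤ 9 / 8 * (9 / 128) ^ 2 := by gcongr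
      _ ≤ 1 / 2 := by norm_num
  · -- h1
    have h4 : (1 - (((1 - ε + 0) / 2) ^ d + ((0 + 0) / 2) ^ d) / 2) ^ (d - 1) ≤ 1 := by
      rw [z0, add_zero]
      exact pow_le_one₀ (by linarith) (by linarith)
    have h4' : 0 ≤ (1 - (((1 - ε + 0) / 2) ^ d + ((0 + 0) / 2) ^ d) / 2) ^ (d - 1) := by
      rw [z0, add_zero]
      exact pow_nonneg (by linarith) _
    have h5 : ((1 + ε) / 2) ^ (d - 1) ≤ 4 / 2 ^ d := by
      rw [half', hNd]
      calc (1 + ε) ^ (d - 1) / 2 ^ (d - 1) ≤ 2 / 2 ^ (d - 1) := by gcongr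
        _ = 4 / (2 * 2 ^ (d - 1)) := by ring
    rw [eqmid ε]
    have h6 : ((1 + ε) / 2) ^ (d - 1) * (1 + 1) + ε ^ (d - 1) * (1 + 1 * (1 / 2))
        ≤ (4 / 2 ^ d) * (1 + 1) + (ε ^ 2) * (1 + 1 * (1 / 2)) := by linarith
    have h7 : 0 ≤ ((1 + ε) / 2) ^ (d - 1) * (1 + 1) + ε ^ (d - 1) * (1 + 1 * (1 / 2)) := by
      positivity
    calc _ ≤ (d : ℝ) ^ 2 / 4 * 1 * ((4 / 2 ^ d) * (1 + 1) + (ε ^ 2) * (1 + 1 * (1 / 2))) :=
          mul_le_mul (mul_le_mul_of_nonneg_left h4 (by positivity)) h6 h7 (by positivity)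
      _ = 2 * ((d : ℝ) ^ 2 / 2 ^ d) + 3 / 8 * (d * ε) ^ 2 := by ring
      _ ≤ 2 * (9 / 256) + 3 / 8 * (9 / 128) ^ 2 := by gcongr
      _ ≤ 1 / 2 * 1 := by norm_num
  · -- h0
    rw [eqmid (1 - ε)]
    have h4 : (1 - ((1 - ε) ^ d + ((1 - ε + 0) / 2) ^ d) / 2) ^ (d - 1)
        ≤ (64 / 5) / 2 ^ d := by
      calc (1 - ((1 - ε) ^ d + ((1 - ε + 0) / 2) ^ d) / 2) ^ (d - 1)
          ≤ ((1 + d * ε) / 2) ^ (d - 1) := pow_le_pow_left₀ (by linarith) (by linarith) _
        _ = (1 + d * ε) ^ (d - 1) / 2 ^ (d - 1) := half' _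
        _ ≤ (32 / 5) / 2 ^ (d - 1) := by gcongr
        _ = (64 / 5) / 2 ^ d := by rw [hNd]; ring
    have h5 : ((1 + ε) / 2) ^ (d - 1) ≤ 1 / 4 := by
      calc ((1 + ε) / 2) ^ (d - 1) ≤ ((1 + ε) / 2) ^ 3 :=
            pow_le_pow_of_le_one (by linarith) (by linarith) (by omega)
        _ ≤ (515 / 1024) ^ 3 := pow_le_pow_left₀ (by linarith) (by linarith) 3
        _ ≤ 1 / 4 := by norm_num
    have h6 : ((1 + 1) / 2 : ℝ) ^ (d - 1) = 1 := by norm_num
    rw [h6]
    have h7 : 1 * (1 * (1 / 2) + 1) + ((1 + ε) / 2) ^ (d - 1) * (1 + 1)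
      ≤ 1 * (1 * (1 / 2) + 1) + 1 / 4 * (1 + 1) := by linarith
    have h8 : 0 ≤ 1 * (1 * (1 / 2) + 1) + ((1 + ε) / 2) ^ (d - 1) * (1 + 1) := by positivity
    calc _ ≤ (d : ℝ) ^ 2 / 4 * ((64 / 5) / 2 ^ d) * (1 * (1 * (1 / 2) + 1) + 1 / 4 * (1 + 1)) :=
          mul_le_mul (mul_le_mul_of_nonneg_left h4 (by positivity)) h7 h8 (by positivity)
      _ = 32 / 5 * ((d : ℝ) ^ 2 / 2 ^ d) := by ring
      _ ≤ 32 / 5 * (9 / 256) := by gcongr
      _ ≤ 1 / 2 * 1 := by norm_num
  · -- hm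
    rw [eqmid (1 - ε), eqmid ((1 - ε) ^ d)]
    have h4 : (1 - (1 - ε) ^ d) ^ (d - 1) ≤ (d * ε) ^ 3 := by
      refine le_trans ?_ e2
      exact pow_le_pow_left₀ (by linarith) (by linarith) _
    calc _ ≤ (d : ℝ) ^ 2 / 4 * (d * ε) ^ 3 * (1 / (1 / 2) + 2 + 1 / 2) :=
          mul_le_mul_of_nonneg_right (mul_le_mul_of_nonneg_left h4 (by positivity)) (by positivity)
      _ = 9 / 8 * (d ^ 2 * ε) ^ 2 * (d * ε) := by ring
      _ ≤ 9 / 8 * (27 / 32) ^ 2 * (9 / 128) := by gcongr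
      _ ≤ 1 / 2 := by norm_num

end Large

section Final

variable {d : ℕ} {Ω : Type*} [mΩ : MeasurableSpace Ω] {μ : Measure Ω} [IsProbabilityMeasure μ]
  {X : Edge d → Ω → ℤ}

lemma Cookies.sys (h : Cookies μ X) (hd : 0 < d) :
    Sys d (fun n k => tail d (2 * n) true (2 * k)) (fun n j => tail d (2 * n + 1) false (2 * j + 1))
      (fun n k => joint d (2 * n) true (2 * k)) (fun n j => joint d (2 * n + 1) false (2 * j + 1))
      where
  P_zero k := by
    simp only [Nat.mul_zero, tail]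
    congr 1
    exact propext ⟨fun h => by omega, fun h => by omega⟩
  P_succ n k := by
    have e : 2 * (n + 1) = (2 * n + 1) + 1 := by ring
    have e1 : 2 * (k - 1) + 1 = 2 * k - 1 := by ring
    simp only [e, e1, tail]
  Q_eq n j := by
    have e1 : 2 * j + 1 - 1 = 2 * j := by ring
    have e2 : 2 * j + 1 + 1 = 2 * (j + 1) := by ring
    simp only [tail, e1, e2]
  G_succ n k := by
    have e : 2 * (n + 1) = (2 * n + 1) + 1 := by ring
    have e' : 2 * (n + 1) + 1 = (2 * n + 1) + 2 := by ring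
    have e1 : 2 * (k - 1) + 1 = 2 * k - 1 := by ring
    simp only [e', e1]
    simp only [e, joint]
  H_eq n j := by
    have e1 : 2 * j + 1 - 1 = 2 * j := by ring
    have e2 : 2 * j + 1 + 1 = 2 * (j + 1) := by ring
    simp only [joint, e1, e2]
  P_nonneg n k := by
    have := h.tail_eq hd (2 * n) [] (2 * k)
    simp only [List.length_nil, Even.zero, decide_true] at this
    rw [← this]
    exact measureReal_nonneg
  P_le n k := by
    have := h.tail_eq hd (2 * n) [] (2 * k)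
    simp only [List.length_nil, Even.zero, decide_true] at this
    rw [← this]
    exact measureReal_le_one
  G_nonneg n k := by
    have := h.joint_eq hd (2 * n) [] (2 * k)
    simp only [List.length_nil, Even.zero, decide_true] at this
    rw [← this]
    exact measureReal_nonneg
  G_le₁ n k := by
    have h1 := h.joint_eq hd (2 * n) [] (2 * k)
    have h2 := h.tail_eq hd (2 * n) [] (2 * k)
    simp only [List.length_nil, Even.zero, decide_true] at h1 h2
    rw [← h1, ← h2]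
    exact measureReal_mono (fun ω hω => hω.1)
  G_le₂ n k := by
    have h1 := h.joint_eq hd (2 * n) [] (2 * k)
    have h2 := h.tail_eq hd (2 * n + 2) [] (2 * k)
    simp only [List.length_nil, Even.zero, decide_true] at h1 h2
    rw [← h1, show 2 * (n + 1) = 2 * n + 2 by ring, ← h2]
    exact measureReal_mono (fun ω hω => hω.2)
  G_ge n k := by
    have h0 := h.joint_lt_eq (2 * n) (2 * n + 2) [] (2 * k)
    have h1 := h.joint_eq hd (2 * n) [] (2 * k)
    have h2 := h.tail_eq hd (2 * n + 2) [] (2 * k)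
    have h3 := h.tail_eq hd (2 * n) [] (2 * k)
    simp only [List.length_nil, Even.zero, decide_true] at h1 h2 h3
    rw [h1, h2, h3] at h0
    rw [show 2 * (n + 1) = 2 * n + 2 by ring]
    have := measureReal_nonneg (μ := μ) (s := {ω | value (fun e => X e ω) (2 * n) [] < 2 * k ∧
      value (fun e => X e ω) (2 * n + 2) [] < 2 * k})
    linarith
  H_le₁ n j := by
    have h1 := h.joint_eq hd (2 * n + 1) [⟨0, hd⟩] (2 * j + 1)
    have h2 := h.tail_eq hd (2 * n + 1) [⟨0, hd⟩] (2 * j + 1)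
    simp only [List.length_singleton, Nat.not_even_one, decide_false] at h1 h2
    rw [← h1, ← h2]
    exact measureReal_mono (fun ω hω => hω.1)
  H_le₂ n j := by
    have h1 := h.joint_eq hd (2 * n + 1) [⟨0, hd⟩] (2 * j + 1)
    have h2 := h.tail_eq hd (2 * n + 1 + 2) [⟨0, hd⟩] (2 * j + 1)
    simp only [List.length_singleton, Nat.not_even_one, decide_false] at h1 h2
    rw [← h1, show 2 * (n + 1) + 1 = 2 * n + 1 + 2 by ring, ← h2]
    exact measureReal_mono (fun ω hω => hω.2)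
  H_ge n j := by
    have h0 := h.joint_lt_eq (2 * n + 1) (2 * n + 1 + 2) [⟨0, hd⟩] (2 * j + 1)
    have h1 := h.joint_eq hd (2 * n + 1) [⟨0, hd⟩] (2 * j + 1)
    have h2 := h.tail_eq hd (2 * n + 1 + 2) [⟨0, hd⟩] (2 * j + 1)
    have h3 := h.tail_eq hd (2 * n + 1) [⟨0, hd⟩] (2 * j + 1)
    simp only [List.length_singleton, Nat.not_even_one, decide_false] at h1 h2 h3
    rw [h1, h2, h3] at h0
    rw [show 2 * (n + 1) + 1 = 2 * n + 1 + 2 by ring]
    have := measureReal_nonneg (μ := μ) (s := {ω | value (fun e => X e ω) (2 * n + 1) [⟨0, hd⟩]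
      < 2 * j + 1 ∧ value (fun e => X e ω) (2 * n + 1 + 2) [⟨0, hd⟩] < 2 * j + 1})
    linarith

lemma value_parity (hd : 0 < d) (x : Edge d → ℤ) (hx : ∀ e, x e = 1 ∨ x e = -1) (m : ℕ) :
    ∀ v : List (Fin d), Even (value x m v + m) := by
  have : Nonempty (Fin d) := ⟨⟨0, hd⟩⟩
  induction m with
  | zero => intro v; simp [value]
  | succ m ih =>
    intro v
    have key : ∀ i : Fin d, Even (x (v, i) + value x m (i :: v) + (m + 1 : ℕ)) := by
      intro i
      obtain ⟨r, hr⟩ := ih (i :: v)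
      rcases hx (v, i) with h | h
      · exact ⟨r + 1, by push_cast; rw [h]; omega⟩
      · exact ⟨r, by push_cast; rw [h]; omega⟩
    by_cases hv : Even v.length
    · simp only [value, if_pos hv]
      obtain ⟨i, hi⟩ := exists_eq_ciSup_of_finite (f := fun i => x (v, i) + value x m (i :: v))
      rw [← hi]
      exact key i
    · simp only [value, if_neg hv]
      obtain ⟨i, hi⟩ := exists_eq_ciInf_of_finite (f := fun i => x (v, i) + value x m (i :: v))
      rw [← hi]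
      exact key i

lemma wf_summable {A B r : ℝ} (hr : 0 < r) (hr1 : r < 1) : Summable (wf A B r) := by
  rw [summable_int_iff_summable_nat_and_neg]
  constructor
  · rw [← summable_nat_add_iff 1]
    have : (fun n : ℕ => wf A B r ((n + 1 : ℕ) : ℤ)) = fun n : ℕ => A * r ^ n := by
      funext n
      simp only [wf]
      rw [if_pos (by push_cast; omega)]
      congr 2
      push_cast
      simp
    rw [this]
    exact (summable_geometric_of_lt_one hr.le hr1).mul_left A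
  · have : (fun n : ℕ => wf A B r (-(n : ℤ))) = fun n : ℕ => B * r ^ n := by
      funext n
      simp only [wf]
      rw [if_neg (by omega)]
      congr 2
      simp
    rw [this]
    exact (summable_geometric_of_lt_one hr.le hr1).mul_left B

lemma Cookies.del_eq (h : Cookies μ X) (hd : 0 < d) (n : ℕ) (k : ℤ) :
    μ (symmDiff {ω | 2 * k ≤ value (fun e => X e ω) (2 * n) []}
        {ω | 2 * k ≤ value (fun e => X e ω) (2 * n + 2) []})
      ≤ ENNReal.ofReal (del (fun n k => tail d (2 * n) true (2 * k))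
          (fun n k => joint d (2 * n) true (2 * k)) n k) := by
  set A := {ω | 2 * k ≤ value (fun e => X e ω) (2 * n) []} with hA
  set B := {ω | 2 * k ≤ value (fun e => X e ω) (2 * n + 2) []} with hB
  have hAm : MeasurableSet A := h.sig_le _ _ (h.meas_ge (2 * n) [] (2 * k))
  have hBm : MeasurableSet B := h.sig_le _ _ (h.meas_ge (2 * n + 2) [] (2 * k))
  have h1 := h.joint_eq hd (2 * n) [] (2 * k)
  have h2 := h.tail_eq hd (2 * n + 2) [] (2 * k)
  have h3 := h.tail_eq hd (2 * n) [] (2 * k)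
  simp only [List.length_nil, Even.zero, decide_true] at h1 h2 h3
  have e1 : μ.real (A \ B) = μ.real A - μ.real (A ∩ B) := by
    have := measureReal_diff_add_inter (μ := μ) (s := A) hBm
    linarith
  have e2 : μ.real (B \ A) = μ.real B - μ.real (A ∩ B) := by
    have := measureReal_diff_add_inter (μ := μ) (s := B) hAm
    rw [Set.inter_comm] at this
    linarith
  have e3 : μ.real (symmDiff A B) ≤ μ.real A + μ.real B - 2 * μ.real (A ∩ B) := by
    have : symmDiff A B = (A \ B) ∪ (B \ A) := rfl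
    rw [this]
    have := measureReal_union_le (μ := μ) (A \ B) (B \ A)
    linarith
  have e4 : μ.real (A ∩ B) = joint d (2 * n) true (2 * k) := h1
  have e5 : μ.real A = tail d (2 * n) true (2 * k) := h3
  have e6 : μ.real B = tail d (2 * n + 2) true (2 * k) := h2
  rw [e4, e5, e6] at e3
  have e7 : μ (symmDiff A B) = ENNReal.ofReal (μ.real (symmDiff A B)) :=
    (ofReal_measureReal (measure_ne_top μ _)).symm
  rw [e7]
  refine ENNReal.ofReal_le_ofReal (e3.trans (le_of_eq ?_))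
  simp only [del, show 2 * (n + 1) = 2 * n + 2 by ring]

lemma Cookies.ae_all (h : Cookies μ X) : ∀ᵐ ω ∂μ, ∀ e, X e ω = 1 ∨ X e ω = -1 :=
  ae_all_iff.2 fun e => h.ae e

/-- reduction of almost sure convergence to the exponential decay -/
lemma Cookies.converges (h : Cookies μ X) (hd : 0 < d) {A B r ρ : ℝ}
    (hr : 0 < r) (hr1 : r < 1) (hρ : 0 ≤ ρ) (hρ1 : ρ < 1)
    (hdec : ∃ (n₀ : ℕ) (C : ℝ), 0 ≤ C ∧ ∀ m k, del (fun n k => tail d (2 * n) true (2 * k))
          (fun n k => joint d (2 * n) true (2 * k)) (n₀ + m) k ≤ C * ρ ^ m * wf A B r k) :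
    ∀ᵐ ω ∂μ, ∃ L : ℤ, Tendsto (fun n => V (fun e => X e ω) n) atTop (𝓝 L) := by
  obtain ⟨n₀, C, hC, hdec⟩ := hdec
  have hws := wf_summable (A := A) (B := B) hr hr1
  -- the sets of disagreement
  set D : ℕ → ℤ → Set Ω := fun n k => symmDiff {ω | 2 * k ≤ value (fun e => X e ω) (2 * n) []}
        {ω | 2 * k ≤ value (fun e => X e ω) (2 * n + 2) []} with hD
  have hb : ∀ m, μ (⋃ k, D (n₀ + m) k) ≤ ENNReal.ofReal (ρ ^ m) *
      ∑' k : ℤ, ENNReal.ofReal (C * wf A B r k) := by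
    intro m
    refine (measure_iUnion_le _).trans ?_
    rw [← ENNReal.tsum_mul_left]
    refine ENNReal.tsum_le_tsum fun k => ?_
    refine (h.del_eq hd (n₀ + m) k).trans ?_
    rw [← ENNReal.ofReal_mul (pow_nonneg hρ m)]
    refine ENNReal.ofReal_le_ofReal ((hdec m k).trans (le_of_eq ?_))
    ring
  have hfin : ∑' k : ℤ, ENNReal.ofReal (C * wf A B r k) ≠ ⊤ :=
    (hws.mul_left C).tsum_ofReal_ne_top
  have hgeo : ∑' m : ℕ, ENNReal.ofReal (ρ ^ m) ≠ ⊤ :=
    (summable_geometric_of_lt_one hρ hρ1).tsum_ofReal_ne_top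
  have hsum : ∑' m, μ (⋃ k, D (n₀ + m) k) ≠ ⊤ := by
    refine ne_top_of_le_ne_top ?_ (ENNReal.tsum_le_tsum hb)
    rw [ENNReal.tsum_mul_right]
    exact ENNReal.mul_ne_top hgeo hfin
  filter_upwards [ae_eventually_notMem hsum, h.ae_all] with ω h1 h2
  have hstep : ∀ᶠ m in atTop, V (fun e => X e ω) (n₀ + m + 1) = V (fun e => X e ω) (n₀ + m) := by
    filter_upwards [h1] with m hm
    simp only [Set.mem_iUnion, not_exists] at hm
    set a := value (fun e => X e ω) (2 * (n₀ + m)) [] with ha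
    set b := value (fun e => X e ω) (2 * (n₀ + m) + 2) [] with hb'
    have hV1 : V (fun e => X e ω) (n₀ + m) = a := rfl
    have hV2 : V (fun e => X e ω) (n₀ + m + 1) = b := rfl
    rw [hV1, hV2]
    have pa : Even a := by
      have := value_parity hd (fun e => X e ω) h2 (2 * (n₀ + m)) []
      rw [← ha] at this
      push_cast at this
      rcases this with ⟨r, hr⟩
      exact ⟨r - (n₀ + m), by omega⟩
    have pb : Even b := by
      have := value_parity hd (fun e => X e ω) h2 (2 * (n₀ + m) + 2) []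
      rw [← hb'] at this
      push_cast at this
      rcases this with ⟨r, hr⟩
      exact ⟨r - (n₀ + m) - 1, by omega⟩
    obtain ⟨i, hi⟩ := pa
    obtain ⟨j, hj⟩ := pb
    have hiff : ∀ k : ℤ, 2 * k ≤ a ↔ 2 * k ≤ b := by
      intro k
      have := hm k
      simp only [hD, Set.mem_symmDiff, Set.mem_ofPred_eq, ← ha, ← hb', not_or, not_and,
        not_not] at this
      exact ⟨this.1, this.2⟩
    have f1 := (hiff i).1 (by omega)
    have f2 := (hiff j).2 (by omega)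
    omega
  obtain ⟨M, hM⟩ := eventually_atTop.1 hstep
  refine ⟨V (fun e => X e ω) (n₀ + M), tendsto_const_nhds.congr' ?_⟩
  filter_upwards [eventually_ge_atTop (n₀ + M)] with n hn
  induction n, hn using Nat.le_induction with
  | base => rfl
  | succ n hn ih =>
    rw [ih]
    have := hM (n - n₀) (by omega)
    rw [show n₀ + (n - n₀) = n by omega] at this
    exact this.symm

end Final

/-- **Almost sure convergence of the noisy tree min-max value for every `d ≥ 3`.**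
For i.i.d. cookies on the edges of the infinite `d`-ary tree, each `1` or `-1` with probability
`1/2`, on any probability space, the sequence `V_n` converges almost surely to an integer. -/
theorem main (d : ℕ) (hd : 3 ≤ d) {Ω : Type*} [MeasurableSpace Ω] (μ : Measure Ω)
    [IsProbabilityMeasure μ] (X : Edge d → Ω → ℤ) (hmeas : ∀ e, Measurable (X e))
    (hindep : iIndepFun X μ) (hpos : ∀ e, μ {ω | X e ω = 1} = 1 / 2)
    (hneg : ∀ e, μ {ω | X e ω = -1} = 1 / 2) :
    ∀ᵐ ω ∂μ, ∃ L : ℤ, Tendsto (fun n => V (fun e => X e ω) n) atTop (𝓝 L) := by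
  have h : Cookies μ X := ⟨hmeas, hindep, hpos, hneg⟩
  have hs := h.sys (by omega)
  by_cases h12 : 12 ≤ d
  · exact h.converges (by omega) (by norm_num) (by norm_num) (by norm_num) (by norm_num)
      (hs.decay_large h12)
  · interval_cases d
    · exact h.converges (by omega) (by norm_num) (by norm_num) (by norm_num) (by norm_num)
        hs.decay_3
    · exact h.converges (by omega) (by norm_num) (by norm_num) (by norm_num) (by norm_num)
        hs.decay_4
    · exact h.converges (by omega) (by norm_num) (by norm_num) (by norm_num) (by norm_num)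
        hs.decay_5
    · exact h.converges (by omega) (by norm_num) (by norm_num) (by norm_num) (by norm_num)
        hs.decay_6
    · exact h.converges (by omega) (by norm_num) (by norm_num) (by norm_num) (by norm_num)
        hs.decay_7
    · exact h.converges (by omega) (by norm_num) (by norm_num) (by norm_num) (by norm_num)
        hs.decay_8
    · exact h.converges (by omega) (by norm_num) (by norm_num) (by norm_num) (by norm_num)
        hs.decay_9
    · exact h.converges (by omega) (by norm_num) (by norm_num) (by norm_num) (by norm_num)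
        hs.decay_10
    · exact h.converges (by omega) (by norm_num) (by norm_num) (by norm_num) (by norm_num)
        hs.decay_11

end Pool.Agent.Helper98.NoisyTree
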