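import Mathlib
import Pool.Agent.Helper98.NoisyTree.Defs

/-!
# Sanity check: families of cookies as in the theorem exist (the hypotheses are not vacuous)
-/

open MeasureTheory ProbabilityTheory

namespace Pool.Agent.Helper98.NoisyTree

/-- the law of one cookie -/
noncomputable def coin : Measure ℤ := (2⁻¹ : ENNReal) • Measure.dirac 1 + (2⁻¹ : ENNReal) • Measure.dirac (-1)

instance : IsProbabilityMeasure coin := ⟨by simp [coin, ENNReal.inv_two_add_inv_two]⟩

lemma exists_cookies (d : ℕ) : ∃ (Ω : Type) (_ : MeasurableSpace Ω) (μ : Measure Ω)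
    (_ : IsProbabilityMeasure μ) (X : Edge d → Ω → ℤ), (∀ e, Measurable (X e)) ∧ iIndepFun X μ ∧
    (∀ e, μ {ω | X e ω = 1} = 1 / 2) ∧ (∀ e, μ {ω | X e ω = -1} = 1 / 2) := by
  refine ⟨Edge d → ℤ, inferInstance, Measure.infinitePi (fun _ => coin), inferInstance,
    fun e ω => ω e, fun e => measurable_pi_apply e, ?_, fun e => ?_, fun e => ?_⟩
  · exact iIndepFun_infinitePi (P := fun _ : Edge d => coin) (X := fun _ x => x)
      (fun _ => measurable_id)
  · have := (measurePreserving_eval_infinitePi (fun _ : Edge d => coin) e).measure_preimage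
      (measurableSet_singleton (1 : ℤ)).nullMeasurableSet
    have h2 : coin {1} = 1 / 2 := by simp [coin]
    rw [h2] at this
    exact this
  · have := (measurePreserving_eval_infinitePi (fun _ : Edge d => coin) e).measure_preimage
      (measurableSet_singleton (-1 : ℤ)).nullMeasurableSet
    have h2 : coin {-1} = 1 / 2 := by simp [coin]
    rw [h2] at this
    exact this

end Pool.Agent.Helper98.NoisyTree
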